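import Mathlib

/-!
Polynomials and linear maps: linear forms, restriction to planes, gluing of polynomials
on a union of planes of `ℂ³` (a union of lines of the projective plane).
-/

namespace Pool.Agent.Work.MP_355410_ag

open MvPolynomial Module

noncomputable section

/-- the linear form `ℓ` as a polynomial -/
def lin {n : ℕ} (ℓ : (Fin n → ℂ) →ₗ[ℂ] ℂ) : MvPolynomial (Fin n) ℂ :=
  ∑ i, C (ℓ (Pi.single i 1)) * X i

theorem sum_single {n : ℕ} (p : Fin n → ℂ) : ∑ i, p i • (Pi.single i (1 : ℂ) : Fin n → ℂ) = p := by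
  funext j
  simp [Finset.sum_apply, Pi.single_apply]

theorem map_eq_sum {n : ℕ} {M : Type*} [AddCommGroup M] [Module ℂ M]
    (ℓ : (Fin n → ℂ) →ₗ[ℂ] M) (p : Fin n → ℂ) :
    ℓ p = ∑ i, p i • ℓ (Pi.single i 1) := by
  conv_lhs => rw [← sum_single p]
  rw [map_sum]
  simp

@[simp]
theorem eval_lin {n : ℕ} (ℓ : (Fin n → ℂ) →ₗ[ℂ] ℂ) (p : Fin n → ℂ) :
    eval p (lin ℓ) = ℓ p := by
  rw [map_eq_sum ℓ p]
  simp only [lin, map_sum, map_mul, eval_C, eval_X, smul_eq_mul]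
  exact Finset.sum_congr rfl fun i _ => mul_comm _ _

theorem lin_hom {n : ℕ} (ℓ : (Fin n → ℂ) →ₗ[ℂ] ℂ) : (lin ℓ).IsHomogeneous 1 := by
  unfold lin
  apply IsHomogeneous.sum
  intro i _
  have h := (isHomogeneous_C (Fin n) (ℓ (Pi.single i 1))).mul (isHomogeneous_X ℂ i)
  simpa using h

theorem lin_ne_zero {n : ℕ} {ℓ : (Fin n → ℂ) →ₗ[ℂ] ℂ} (h : ℓ ≠ 0) : lin ℓ ≠ 0 := by
  intro h0
  apply h
  ext p
  have := eval_lin ℓ (Pi.single p 1)
  rw [h0] at this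
  simpa using this.symm

theorem lin_irred {n : ℕ} {ℓ : (Fin n → ℂ) →ₗ[ℂ] ℂ} (h : ℓ ≠ 0) : Irreducible (lin ℓ) := by
  apply irreducible_of_totalDegree_eq_one
  · exact (lin_hom ℓ).totalDegree (lin_ne_zero h)
  · intro x hx
    by_cases hx0 : x = 0
    · exfalso
      apply lin_ne_zero h
      ext i
      have := hx i
      rw [hx0, zero_dvd_iff] at this
      simpa using this
    · exact isUnit_iff_ne_zero.mpr hx0

theorem lin_dvd {n : ℕ} {ℓ : (Fin n → ℂ) →ₗ[ℂ] ℂ} (h : ℓ ≠ 0) {D : MvPolynomial (Fin n) ℂ}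
    (hD : ∀ p, ℓ p = 0 → eval p D = 0) : lin ℓ ∣ D := by
  have hp : Prime (lin ℓ) := (lin_irred h).prime
  have hI : (Ideal.span {lin ℓ}).IsPrime := (Ideal.span_singleton_prime (lin_ne_zero h)).mpr hp
  rw [← Ideal.mem_span_singleton, ← MvPolynomial.IsPrime.vanishingIdeal_zeroLocus (K := ℂ) (Ideal.span {lin ℓ})]
  rw [mem_vanishingIdeal_iff]
  intro x hx
  rw [mem_zeroLocus_iff] at hx
  have := hx (lin ℓ) (Ideal.mem_span_singleton_self _)
  have h2 : ℓ x = 0 := by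
    rw [← eval_lin]
    simpa [aeval_eq_eval] using this
  have := hD x h2
  simpa [aeval_eq_eval] using this

/-- substitution of a linear map in a polynomial -/
def pull {m n : ℕ} (ψ : (Fin m → ℂ) →ₗ[ℂ] (Fin n → ℂ)) :
    MvPolynomial (Fin n) ℂ →ₐ[ℂ] MvPolynomial (Fin m) ℂ :=
  aeval (fun j => ∑ i, C (ψ (Pi.single i 1) j) * X i)

@[simp]
theorem eval_pull {m n : ℕ} (ψ : (Fin m → ℂ) →ₗ[ℂ] (Fin n → ℂ)) (F : MvPolynomial (Fin n) ℂ)
    (p : Fin m → ℂ) : eval p (pull ψ F) = eval (ψ p) F := by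
  have h : ∀ (q : Fin m → ℂ) (H : MvPolynomial (Fin m) ℂ), eval q H = aeval q H := fun q H => by
    simp [aeval_eq_eval]
  have h' : ∀ (q : Fin n → ℂ) (H : MvPolynomial (Fin n) ℂ), eval q H = aeval q H := fun q H => by
    simp [aeval_eq_eval]
  rw [h, h']
  unfold pull
  rw [← AlgHom.comp_apply, comp_aeval]
  congr 1
  congr 1
  funext j
  simp only [map_sum, map_mul, aeval_C, aeval_X]
  rw [map_eq_sum ψ p]
  simp [mul_comm]

theorem pull_hom {m n : ℕ} (ψ : (Fin m → ℂ) →ₗ[ℂ] (Fin n → ℂ)) {F : MvPolynomial (Fin n) ℂ}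
    {d : ℕ} (hF : F.IsHomogeneous d) : (pull ψ F).IsHomogeneous d := by
  unfold pull
  have := hF.aeval (fun j => ∑ i, C (ψ (Pi.single i 1) j) * X i) (n := 1) (fun j => by
    apply IsHomogeneous.sum
    intro i _
    have h := (isHomogeneous_C (Fin m) (ψ (Pi.single i 1) j)).mul (isHomogeneous_X ℂ i)
    simpa using h)
  simpa using this

theorem pull_pull {l m n : ℕ} (ψ : (Fin m → ℂ) →ₗ[ℂ] (Fin n → ℂ))
    (ρ : (Fin l → ℂ) →ₗ[ℂ] (Fin m → ℂ)) (F : MvPolynomial (Fin n) ℂ) :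
    pull ρ (pull ψ F) = pull (ψ ∘ₗ ρ) F := by
  apply MvPolynomial.funext
  intro p
  simp

theorem pull_id {m : ℕ} (F : MvPolynomial (Fin m) ℂ) : pull LinearMap.id F = F := by
  apply MvPolynomial.funext
  intro p
  simp

theorem pull_lin {m n : ℕ} (ψ : (Fin m → ℂ) →ₗ[ℂ] (Fin n → ℂ)) (ℓ : (Fin n → ℂ) →ₗ[ℂ] ℂ) :
    pull ψ (lin ℓ) = lin (ℓ ∘ₗ ψ) := by
  apply MvPolynomial.funext
  intro p
  simp

/-- a plane in `ℂ³` has an equation -/
theorem exists_form {ψ : (Fin 2 → ℂ) →ₗ[ℂ] (Fin 3 → ℂ)} (hψ : Function.Injective ψ) :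
    ∃ ℓ : (Fin 3 → ℂ) →ₗ[ℂ] ℂ, ℓ ≠ 0 ∧ ∀ w, ℓ w = 0 ↔ w ∈ LinearMap.range ψ := by
  have hr : finrank ℂ (LinearMap.range ψ) = 2 := by
    rw [LinearMap.finrank_range_of_inj hψ]; simp
  have hlt : LinearMap.range ψ < ⊤ := by
    rw [lt_top_iff_ne_top]
    intro h
    rw [h, finrank_top] at hr
    simp at hr
  obtain ⟨f, hf0, hf⟩ := Submodule.exists_le_ker_of_lt_top _ hlt
  refine ⟨f, hf0, ?_⟩
  have hk : finrank ℂ (LinearMap.ker f) = 2 := by
    have h1 := LinearMap.finrank_range_add_finrank_ker f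
    have h2 : finrank ℂ (LinearMap.range f) = 1 := by
      have : LinearMap.range f = ⊤ := LinearMap.range_eq_top.mpr (LinearMap.surjective hf0)
      rw [this, finrank_top]; simp
    simp at h1
    omega
  have he : LinearMap.range ψ = LinearMap.ker f :=
    Submodule.eq_of_le_of_finrank_eq hf (by rw [hr, hk])
  intro w
  rw [he, LinearMap.mem_ker]

end

end Pool.Agent.Work.MP_355410_ag
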