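import Pool.Agent.Work.MP_355410_ag.Glue

namespace Pool.Agent.Work.MP_355410_ag

open MvPolynomial Module

noncomputable section

/-- the linear form `p ↦ det (u, p)` on `ℂ²` -/
def om (u : Fin 2 → ℂ) : (Fin 2 → ℂ) →ₗ[ℂ] ℂ where
  toFun p := u 0 * p 1 - u 1 * p 0
  map_add' p q := by simp; ring
  map_smul' c p := by simp; ring

theorem om_apply (u p : Fin 2 → ℂ) : om u p = u 0 * p 1 - u 1 * p 0 := rfl

@[simp] theorem om_self (u : Fin 2 → ℂ) : om u u = 0 := by rw [om_apply]; ring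

theorem om_antisymm (u p : Fin 2 → ℂ) : om u p = - om p u := by rw [om_apply, om_apply]; ring

theorem om_smul_left (t : ℂ) (u p : Fin 2 → ℂ) : om (t • u) p = t * om u p := by
  rw [om_apply, om_apply]; simp; ring

theorem om_eq_zero {u p : Fin 2 → ℂ} (hu : u ≠ 0) (h : om u p = 0) : ∃ t : ℂ, p = t • u := by
  rw [om_apply] at h
  by_cases h0 : u 0 = 0
  · have h1 : u 1 ≠ 0 := by
      intro h1
      apply hu
      funext i
      fin_cases i <;> simp [h0, h1]
    refine ⟨p 1 / u 1, ?_⟩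
    rw [h0] at h
    have hp0 : p 0 = 0 := by
      have : u 1 * p 0 = 0 := by linear_combination -h
      exact (mul_eq_zero.mp this).resolve_left h1
    funext i
    fin_cases i
    · simp [hp0, h0]
    · simp; field_simp
  · refine ⟨p 0 / u 0, ?_⟩
    funext i
    fin_cases i
    · simp; field_simp
    · simp
      field_simp
      linear_combination h

theorem om_ne_zero {u : Fin 2 → ℂ} (hu : u ≠ 0) : om u ≠ 0 := by
  intro h
  apply hu
  have h0 := LinearMap.congr_fun h (Pi.single 0 1)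
  have h1 := LinearMap.congr_fun h (Pi.single 1 1)
  rw [om_apply] at h0 h1
  simp at h0 h1
  funext i
  fin_cases i
  · simpa using h1
  · simpa using h0

/-- the binary form with zeros `z s` -/
def fp {a : ℕ} (z : Fin a → Fin 2 → ℂ) : MvPolynomial (Fin 2) ℂ := ∏ s, lin (om (z s))

theorem eval_fp {a : ℕ} (z : Fin a → Fin 2 → ℂ) (p : Fin 2 → ℂ) :
    eval p (fp z) = ∏ s, om (z s) p := by
  simp [fp, map_prod]

theorem fp_hom {a : ℕ} (z : Fin a → Fin 2 → ℂ) : (fp z).IsHomogeneous a := by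
  unfold fp
  have := IsHomogeneous.prod (Finset.univ : Finset (Fin a)) (fun s => lin (om (z s)))
    (fun _ => 1) (fun s _ => lin_hom _)
  simpa using this

theorem eval_hom {n d : ℕ} {F : MvPolynomial (Fin n) ℂ} (hF : F.IsHomogeneous d) (t : ℂ)
    (p : Fin n → ℂ) : eval (t • p) F = t ^ d * eval p F := by
  rw [eval_eq, eval_eq, Finset.mul_sum]
  apply Finset.sum_congr rfl
  intro e he
  have hd : e.degree = d := by
    have := hF (mem_support_iff.mp he)
    rwa [Finsupp.degree_eq_weight_one]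
  have : ∏ i ∈ e.support, (t • p) i ^ e i = t ^ d * ∏ i ∈ e.support, p i ^ e i := by
    simp only [Pi.smul_apply, smul_eq_mul, mul_pow, Finset.prod_mul_distrib]
    rw [Finset.prod_pow_eq_pow_sum]
    congr 2
  rw [this]; ring

/-- distinct zeros -/
def Dist {a : ℕ} (z : Fin a → Fin 2 → ℂ) : Prop :=
  (∀ s, z s ≠ 0) ∧ ∀ s t, s ≠ t → om (z s) (z t) ≠ 0

theorem fp_ne_zero {a : ℕ} {z : Fin a → Fin 2 → ℂ} (hz : Dist z) : fp z ≠ 0 := by
  unfold fp
  rw [Finset.prod_ne_zero_iff]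
  intro s _
  exact lin_ne_zero (om_ne_zero (hz.1 s))

theorem fp_dvd {a : ℕ} {z : Fin a → Fin 2 → ℂ} (hz : Dist z) {F : MvPolynomial (Fin 2) ℂ}
    (hF : ∀ s (t : ℂ), eval (t • z s) F = 0) : fp z ∣ F := by
  unfold fp
  apply Finset.prod_dvd_of_isRelPrime
  · intro s _ t _ hst
    exact lin_relprime (om_ne_zero (hz.1 s)) (om_ne_zero (hz.1 t)) (p := z s) (om_self _)
      (hz.2 t s (Ne.symm hst))
  · intro s _
    apply lin_dvd (om_ne_zero (hz.1 s))
    intro p hp
    obtain ⟨t, rfl⟩ := om_eq_zero (hz.1 s) hp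
    exact hF s t

theorem fp_unique {a : ℕ} {z : Fin a → Fin 2 → ℂ} (hz : Dist z) {F : MvPolynomial (Fin 2) ℂ}
    (hF : F.IsHomogeneous a) (hF0 : ∀ s, eval (z s) F = 0) : ∃ c : ℂ, F = C c * fp z := by
  by_cases h0 : F = 0
  · exact ⟨0, by simp [h0]⟩
  obtain ⟨q, hq⟩ := fp_dvd hz (F := F) (fun s t => by rw [eval_hom hF, hF0 s, mul_zero])
  have hq0 : q ≠ 0 := by rintro rfl; exact h0 (by rw [hq, mul_zero])
  have hd := congrArg totalDegree hq
  rw [totalDegree_mul_of_isDomain (fp_ne_zero hz) hq0, hF.totalDegree h0,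
    (fp_hom z).totalDegree (fp_ne_zero hz)] at hd
  have hq1 : q.totalDegree = 0 := by omega
  obtain ⟨c, hc⟩ : ∃ c, q = C c := ⟨_, totalDegree_eq_zero_iff_eq_C.mp hq1⟩
  exact ⟨c, by rw [hq, hc, mul_comm]⟩

theorem eval_fp_ne {a : ℕ} {z : Fin a → Fin 2 → ℂ} {p : Fin 2 → ℂ}
    (h : ∀ s, om (z s) p ≠ 0) : eval p (fp z) ≠ 0 := by
  rw [eval_fp, Finset.prod_ne_zero_iff]
  exact fun s _ => h s

/-- a form of degree `a` with `a + 1` zeros vanishes -/
theorem zero_of_zeros {a : ℕ} {z : Fin a → Fin 2 → ℂ} (hz : Dist z) {F : MvPolynomial (Fin 2) ℂ}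
    (hF : F.IsHomogeneous a) (hF0 : ∀ s, eval (z s) F = 0) {p : Fin 2 → ℂ}
    (h : ∀ s, om (z s) p ≠ 0) (hp : eval p F = 0) : F = 0 := by
  obtain ⟨c, hc⟩ := fp_unique hz hF hF0
  rw [hc, map_mul, eval_C] at hp
  have := (mul_eq_zero.mp hp).resolve_right (eval_fp_ne h)
  rw [hc, this]; simp

/-- existence of a point which is not a zero -/
theorem exists_not_zero {n : ℕ} {F : MvPolynomial (Fin n) ℂ} (h : F ≠ 0) :
    ∃ p, eval p F ≠ 0 := by
  by_contra hcon
  push Not at hcon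
  exact h (MvPolynomial.funext (fun p => by rw [hcon p, map_zero]))

end

end Pool.Agent.Work.MP_355410_ag
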