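import Pool.Agent.Work.MP_355410_ag.Binary

namespace Pool.Agent.Work.MP_355410_ag

open MvPolynomial Module

noncomputable section

/-- the line through `p` -/
def toLine {n : ℕ} (p : Fin n → ℂ) : (Fin 1 → ℂ) →ₗ[ℂ] (Fin n → ℂ) where
  toFun t := t 0 • p
  map_add' s t := by simp [add_smul]
  map_smul' c t := by simp [mul_smul]

theorem toLine_apply {n : ℕ} (p : Fin n → ℂ) (t : Fin 1 → ℂ) : toLine p t = t 0 • p := rfl

/-- two polynomial functions on lines which agree away from the origin agree at the origin -/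
theorem eval_zero_eq {m n : ℕ} (A : MvPolynomial (Fin m) ℂ) (B : MvPolynomial (Fin n) ℂ)
    (p : Fin m → ℂ) (q : Fin n → ℂ)
    (h : ∀ t : ℂ, t ≠ 0 → eval (t • p) A = eval (t • q) B) : eval 0 A = eval 0 B := by
  have key : (pull (toLine p) A - pull (toLine q) B) * X 0 = 0 := by
    apply MvPolynomial.funext
    intro t
    rw [map_mul, map_sub, eval_pull, eval_pull, toLine_apply, toLine_apply, eval_X, map_zero]
    by_cases ht : t 0 = 0
    · rw [ht, mul_zero]
    · rw [h _ ht, sub_self, zero_mul]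
  have h2 : pull (toLine p) A - pull (toLine q) B = 0 :=
    (mul_eq_zero.mp key).resolve_right (X_ne_zero 0)
  have h3 := congrArg (eval (0 : Fin 1 → ℂ)) h2
  rw [map_sub, eval_pull, eval_pull, toLine_apply, toLine_apply, map_zero] at h3
  simp only [Pi.zero_apply, zero_smul] at h3
  exact sub_eq_zero.mp h3

theorem ci_mem {ι : Type*} [Fintype ι] [DecidableEq ι] {a : ℕ}
    (ψ : ι → (Fin 2 → ℂ) →ₗ[ℂ] (Fin 3 → ℂ)) (hinj : ∀ i, Function.Injective (ψ i))
    (hnode : ∀ i j k, i ≠ j → i ≠ k → j ≠ k → ∀ p q r, ψ i p = ψ j q → ψ i p = ψ k r → p = 0)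
    (hdist : ∀ i j, i ≠ j → LinearMap.range (ψ i) ≠ LinearMap.range (ψ j))
    (z : ι → Fin a → Fin 2 → ℂ) (hz : ∀ i, Dist (z i))
    (hzn : ∀ i j, i ≠ j → ∀ s q, ψ i (z i s) ≠ ψ j q)
    (ℓ : ι → (Fin 3 → ℂ) →ₗ[ℂ] ℂ) (hℓ0 : ∀ i, ℓ i ≠ 0)
    (hℓ : ∀ i w, ℓ i w = 0 ↔ w ∈ LinearMap.range (ψ i))
    (F : MvPolynomial (Fin 3) ℂ) (hF : ∀ i, ∃ c : ℂ, c ≠ 0 ∧ pull (ψ i) F = C c * fp (z i))
    (G : MvPolynomial (Fin 3) ℂ) (hG : ∀ i s (t : ℂ), eval (t • ψ i (z i s)) G = 0) :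
    ∃ A B, G = A * F + B * ∏ i, lin (ℓ i) := by
  choose c hc0 hc using hF
  have h1 : ∀ i, fp (z i) ∣ pull (ψ i) G := by
    intro i
    apply fp_dvd (hz i)
    intro s t
    rw [eval_pull, map_smul]
    exact hG i s t
  choose h hh using h1
  obtain ⟨B, h2⟩ : ∃ B : ι → MvPolynomial (Fin 2) ℂ,
      ∀ i, pull (ψ i) G = B i * pull (ψ i) F := by
    refine ⟨fun i => C (c i)⁻¹ * h i, ?_⟩
    intro i
    have hcc : C (c i)⁻¹ * C (c i) = (1 : MvPolynomial (Fin 2) ℂ) := by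
      rw [← C_mul, inv_mul_cancel₀ (hc0 i), C_1]
    rw [hh i, hc i]
    linear_combination (-(h i * fp (z i))) * hcc
  have h3 : ∀ i j, i ≠ j → ∀ p q, p ≠ 0 → ψ i p = ψ j q → eval p (B i) = eval q (B j) := by
    intro i j hij p q hp hpq
    have e1 : eval p (B i) * eval (ψ i p) F = eval (ψ i p) G := by
      rw [← eval_pull, ← eval_pull, h2 i, map_mul]
    have e2 : eval q (B j) * eval (ψ j q) F = eval (ψ j q) G := by
      rw [← eval_pull, ← eval_pull, h2 j, map_mul]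
    rw [← hpq] at e2
    have hne : eval (ψ i p) F ≠ 0 := by
      rw [← eval_pull, hc i, map_mul, eval_C]
      apply mul_ne_zero (hc0 i)
      apply eval_fp_ne
      intro s hs
      obtain ⟨t, ht⟩ := om_eq_zero ((hz i).1 s) hs
      have ht0 : t ≠ 0 := by rintro rfl; exact hp (by rw [ht, zero_smul])
      apply hzn i j hij s (t⁻¹ • q)
      rw [map_smul, ← hpq, ht, map_smul, smul_smul, inv_mul_cancel₀ ht0, one_smul]
    exact mul_right_cancel₀ hne (e1.trans e2.symm)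
  have h4 : ∀ i j, i ≠ j → ∀ p q, ψ i p = ψ j q → eval p (B i) = eval q (B j) := by
    intro i j hij p q hpq
    by_cases hp : p = 0
    · subst hp
      have hq : q = 0 := hinj j (by rw [← hpq, map_zero, map_zero])
      subst hq
      obtain ⟨p0, q0, hp0, _, h0⟩ := exists_node (hinj i) (hinj j)
      apply eval_zero_eq _ _ p0 q0
      intro t ht
      apply h3 i j hij
      · exact smul_ne_zero ht hp0
      · rw [map_smul, map_smul, h0]
    · exact h3 i j hij p q hp hpq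
  obtain ⟨A, hA⟩ := extend Finset.univ ψ hinj hnode hdist B h4
  obtain ⟨D, hD⟩ := prod_dvd_of_vanish Finset.univ ψ hinj hdist ℓ hℓ0 hℓ (G - A * F) (by
    intro i hi
    rw [map_sub, map_mul, hA i hi, h2 i, sub_self])
  exact ⟨A, D, by linear_combination hD⟩

end

end Pool.Agent.Work.MP_355410_ag
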