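import Mathlib

/-!
The definitions of `problems/MP_355410_ag`: finite sets of points of projective space, their
general projections, the geproci property, combinatorial equivalence, half grids.
-/

namespace Pool.Agent.Work.MP_355410_ag

open MvPolynomial Module LinearAlgebra.Projectivization

noncomputable section

/-- the projective space `ℙⁿ` over the complex numbers -/
abbrev PS (n : ℕ) : Type := Projectivization ℂ (Fin (n + 1) → ℂ)

/-- the linear span of a set of points of `ℙⁿ`, as a linear subspace of `ℂⁿ⁺¹` -/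
def lspan {n : ℕ} (S : Set (PS n)) : Submodule ℂ (Fin (n + 1) → ℂ) :=
  ⨆ x ∈ S, x.submodule

/-- not contained in a hyperplane -/
def Nondegenerate {n : ℕ} (Z : Set (PS n)) : Prop := lspan Z = ⊤

/-- combinatorial equivalence: a bijection which preserves the dimensions of the linear spans
of all subsets -/
def CombEquiv {n : ℕ} (Z Z' : Set (PS n)) : Prop :=
  ∃ f : PS n → PS n, Set.BijOn f Z Z' ∧
    ∀ S ⊆ Z, finrank ℂ (lspan (f '' S)) = finrank ℂ (lspan S)

/-- the linear map `φ : ℂⁿ⁺¹ → ℂⁿ` induces the projection from the point `P` of `ℙⁿ` to a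
hyperplane `ℙⁿ⁻¹` (its coordinates are those of `ℂⁿ`) -/
def IsProjection {n : ℕ} (P : PS n) (φ : (Fin (n + 1) → ℂ) →ₗ[ℂ] (Fin n → ℂ)) : Prop :=
  Function.Surjective φ ∧ LinearMap.ker φ = P.submodule

/-- the homogeneous ideal of the image of `Z` under the projection `φ`: it is generated by the
homogeneous polynomials which vanish at the images of the points of `Z` -/
def imageIdeal {n : ℕ} (Z : Set (PS n)) (φ : (Fin (n + 1) → ℂ) →ₗ[ℂ] (Fin n → ℂ)) :
    Ideal (MvPolynomial (Fin n) ℂ) :=
  Ideal.span {H | (∃ d, H.IsHomogeneous d) ∧ ∀ x ∈ Z, eval (φ x.rep) H = 0}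

/-- a property holds for the general point of `ℙⁿ`: it holds on the complement of a
hypersurface -/
def General {n : ℕ} (Q : PS n → Prop) : Prop :=
  ∃ G : MvPolynomial (Fin (n + 1)) ℂ, G ≠ 0 ∧ (∃ d, G.IsHomogeneous d) ∧
    ∀ P : PS n, eval P.rep G ≠ 0 → Q P

/-- `Z` is geproci: the homogeneous ideal of the projection of `Z` from a general point is
generated by `n - 1` forms -/
def IsGeproci {n : ℕ} (Z : Set (PS n)) : Prop :=
  Z.Finite ∧ General (fun P : PS n => ∀ φ, IsProjection P φ →
    ∃ F : Fin (n - 1) → MvPolynomial (Fin n) ℂ, (∀ i, ∃ d, (F i).IsHomogeneous d) ∧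
      imageIdeal Z φ = Ideal.span (Set.range F))

/-- the projection of `Z ⊂ ℙ³` from a general point is the complete intersection of a curve
of degree `a` and a curve of degree `b` -/
def IsGeprociType (a b : ℕ) (Z : Set (PS 3)) : Prop :=
  Z.Finite ∧ General (fun P : PS 3 => ∀ φ, IsProjection P φ →
    ∃ F G : MvPolynomial (Fin 3) ℂ, F.IsHomogeneous a ∧ G.IsHomogeneous b ∧
      imageIdeal Z φ = Ideal.span {F, G})

/-- `Z` consists of `a` points on each of the `b` pairwise skew lines `L i` of `ℙ³` -/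
def OnSkewLines (a b : ℕ) (L : Fin b → Submodule ℂ (Fin 4 → ℂ)) (Z : Set (PS 3)) : Prop :=
  (∀ i, finrank ℂ (L i) = 2) ∧ (∀ i j, i ≠ j → Disjoint (L i) (L j)) ∧
  (∀ x ∈ Z, ∃ i, x.submodule ≤ L i) ∧ (∀ i, {x ∈ Z | x.submodule ≤ L i}.ncard = a)

/-- `Z` is a half grid: it consists of `a ≥ 2` points on each of `b ≥ 2` pairwise skew lines
and its general projection is the complete intersection of two plane curves of degrees `a`
and `b` -/
def IsHalfGrid (Z : Set (PS 3)) : Prop :=
  ∃ a b : ℕ, 2 ≤ a ∧ 2 ≤ b ∧ IsGeprociType a b Z ∧ ∃ L, OnSkewLines a b L Z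

/-- the combinatorial condition on a set of points on the skew lines `L i`: for any three
different lines `L i`, `L j`, `L k` and any point `x ∈ Z` on `L i` there is a point `y ∈ Z` on
`L k` such that `x`, `y` and the line `L j` lie in a plane (equivalently, the line through
`x` which meets `L j` and `L k` meets `L k` in a point of `Z`) -/
def Coplanarity {b : ℕ} (L : Fin b → Submodule ℂ (Fin 4 → ℂ)) (Z : Set (PS 3)) : Prop :=
  ∀ i j k, i ≠ j → i ≠ k → j ≠ k → ∀ x ∈ Z, x.submodule ≤ L i →
    ∃ y ∈ Z, y.submodule ≤ L k ∧ finrank ℂ ↥(x.submodule ⊔ y.submodule ⊔ L j) = 3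

end

end Pool.Agent.Work.MP_355410_ag
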