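import Pool.Agent.Work.MP_355410_ag.Nec2
import Pool.Agent.Work.MP_355410_ag.Defs

namespace Pool.Agent.Work.MP_355410_ag

open MvPolynomial Module LinearAlgebra.Projectivization

noncomputable section

theorem submodule_eq {n : ℕ} (x : PS n) : x.submodule = Submodule.span ℂ {x.rep} :=
  Projectivization.submodule_eq x

theorem submodule_le_iff {n : ℕ} (x : PS n) (L : Submodule ℂ (Fin (n + 1) → ℂ)) :
    x.submodule ≤ L ↔ x.rep ∈ L := by
  rw [submodule_eq, Submodule.span_singleton_le_iff_mem]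

theorem eq_of_rep {n : ℕ} {x y : PS n} {c : ℂ} (h : y.rep = c • x.rep) : y = x := by
  apply Projectivization.submodule_injective
  rw [submodule_eq, submodule_eq, h]
  have hc : c ≠ 0 := by
    rintro rfl
    exact y.rep_nonzero (by rw [h, zero_smul])
  exact Submodule.span_singleton_smul_eq (isUnit_iff_ne_zero.mpr hc) _

theorem onSkew_finite {a b : ℕ} (ha : 0 < a) {L : Fin b → Submodule ℂ (Fin 4 → ℂ)}
    {Z : Set (PS 3)} (h : OnSkewLines a b L Z) : Z.Finite := by
  have h1 : Z ⊆ ⋃ i, {x ∈ Z | x.submodule ≤ L i} := by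
    intro x hx
    obtain ⟨i, hi⟩ := h.2.2.1 x hx
    exact Set.mem_iUnion.mpr ⟨i, hx, hi⟩
  refine (Set.finite_iUnion (fun i => ?_)).subset h1
  apply Set.finite_of_ncard_ne_zero
  rw [h.2.2.2 i]; omega

/-- the data of a set of points on skew lines -/
structure Data (a b : ℕ) (L : Fin b → Submodule ℂ (Fin 4 → ℂ)) (Z : Set (PS 3)) where
  lam : Fin b → (Fin 2 → ℂ) →ₗ[ℂ] (Fin 4 → ℂ)
  z : Fin b → Fin a → Fin 2 → ℂ
  e : Fin b → Fin a → PS 3
  range : ∀ i, LinearMap.range (lam i) = L i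
  skew : ∀ i j, i ≠ j → Skew (lam i) (lam j)
  dist : ∀ i, Dist (z i)
  mem : ∀ i s, e i s ∈ Z
  le : ∀ i s, (e i s).submodule ≤ L i
  all : ∀ i, ∀ x ∈ Z, x.submodule ≤ L i → ∃ s, x = e i s
  rep : ∀ i s, (e i s).rep = lam i (z i s)

theorem exists_data {a b : ℕ} (ha : 0 < a) {L : Fin b → Submodule ℂ (Fin 4 → ℂ)}
    {Z : Set (PS 3)} (h : OnSkewLines a b L Z) : Nonempty (Data a b L Z) := by
  obtain ⟨h1, h2, h3, h4⟩ := h
  have hl : ∀ i, ∃ l : (Fin 2 → ℂ) →ₗ[ℂ] (Fin 4 → ℂ), Function.Injective l ∧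
      LinearMap.range l = L i := by
    intro i
    have : finrank ℂ (Fin 2 → ℂ) = finrank ℂ (L i) := by rw [h1 i]; simp
    let e := LinearEquiv.ofFinrankEq _ _ this
    refine ⟨(L i).subtype ∘ₗ e.toLinearMap, ?_, ?_⟩
    · rw [LinearMap.coe_comp]
      exact (Submodule.subtype_injective _).comp e.injective
    · rw [LinearMap.range_comp, LinearEquiv.range, Submodule.map_top, Submodule.range_subtype]
  choose lam hinj hrange using hl
  have he : ∀ i, ∃ e : Fin a → PS 3, Function.Injective e ∧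
      Set.range e = {x ∈ Z | x.submodule ≤ L i} := by
    intro i
    have hfin : {x ∈ Z | x.submodule ≤ L i}.Finite := by
      apply Set.finite_of_ncard_ne_zero
      rw [h4 i]; omega
    have hc : Nat.card {x ∈ Z | x.submodule ≤ L i} = a := by
      rw [Nat.card_coe_set_eq, h4 i]
    have : Finite {x ∈ Z | x.submodule ≤ L i} := hfin
    let g := Finite.equivFinOfCardEq hc
    refine ⟨fun s => (g.symm s : PS 3), ?_, ?_⟩
    · intro s t hst
      exact g.symm.injective (Subtype.ext hst)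
    · ext x
      constructor
      · rintro ⟨s, rfl⟩
        exact (g.symm s).2
      · intro hx
        exact ⟨g ⟨x, hx⟩, by simp⟩
  choose e heinj herange using he
  have hmem : ∀ i s, e i s ∈ {x ∈ Z | x.submodule ≤ L i} := by
    intro i s
    rw [← herange i]; exact ⟨s, rfl⟩
  have hz : ∀ i s, ∃ q, lam i q = (e i s).rep := by
    intro i s
    have := (submodule_le_iff _ _).mp (hmem i s).2
    rw [← hrange i] at this
    exact this
  choose z hz using hz
  refine ⟨⟨lam, z, e, hrange, ?_, ?_, fun i s => (hmem i s).1, fun i s => (hmem i s).2, ?_,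
    fun i s => (hz i s).symm⟩⟩
  · intro i j hij p q hpq
    have hd := h2 i j hij
    have h5 : lam i p = lam j (-q) := by
      rw [map_neg]; exact eq_neg_of_add_eq_zero_left hpq
    have h6 : lam i p ∈ L i ⊓ L j := by
      refine ⟨?_, ?_⟩
      · rw [← hrange i]; exact ⟨p, rfl⟩
      · rw [h5, ← hrange j]; exact ⟨-q, rfl⟩
    rw [hd.eq_bot, Submodule.mem_bot] at h6
    have hp : p = 0 := hinj i (by rw [h6, map_zero])
    refine ⟨hp, ?_⟩
    rw [hp, map_zero, zero_add] at hpq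
    exact hinj j (by rw [hpq, map_zero])
  · intro i
    refine ⟨?_, ?_⟩
    · intro s h0
      apply (e i s).rep_nonzero
      rw [← hz i s, h0, map_zero]
    · intro s t hst h0
      have hz0 : z i s ≠ 0 := by
        intro h0
        apply (e i s).rep_nonzero
        rw [← hz i s, h0, map_zero]
      obtain ⟨c, hc⟩ := om_eq_zero hz0 h0
      apply hst
      apply heinj i
      symm
      apply eq_of_rep (c := c)
      rw [← hz i s, ← hz i t, hc, map_smul]
  · intro i x hx hxL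
    have : x ∈ Set.range (e i) := by rw [herange i]; exact ⟨hx, hxL⟩
    obtain ⟨s, rfl⟩ := this
    exact ⟨s, rfl⟩

theorem Data.image {a b : ℕ} {L : Fin b → Submodule ℂ (Fin 4 → ℂ)}
    {Z : Set (PS 3)} (h : OnSkewLines a b L Z) (D : Data a b L Z)
    (φ : (Fin 4 → ℂ) →ₗ[ℂ] (Fin 3 → ℂ)) :
    imageIdeal Z φ = ptIdeal {w | ∃ i s, w = φ (D.lam i (D.z i s))} := by
  unfold imageIdeal ptIdeal
  congr 1
  ext H
  constructor
  · rintro ⟨h1, h2⟩
    refine ⟨h1, ?_⟩
    rintro w ⟨i, s, rfl⟩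
    rw [← D.rep]
    exact h2 _ (D.mem i s)
  · rintro ⟨h1, h2⟩
    refine ⟨h1, ?_⟩
    intro x hx
    obtain ⟨i, hi⟩ := h.2.2.1 x hx
    obtain ⟨s, rfl⟩ := D.all i x hx hi
    apply h2
    exact ⟨i, s, by rw [D.rep]⟩

theorem finrank_rep_sup {x : PS 3} {L L' : Submodule ℂ (Fin 4 → ℂ)} (hL : finrank ℂ L = 2)
    (hx : x.submodule ≤ L') (hd : Disjoint L' L) : finrank ℂ ↥(x.submodule ⊔ L) = 3 := by
  have h1 := Submodule.finrank_sup_add_finrank_inf_eq x.submodule L
  have h2 : x.submodule ⊓ L = ⊥ := (hd.mono_left hx).eq_bot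
  rw [h2, finrank_bot, hL, x.finrank_submodule] at h1
  omega

/-- the coplanarity condition is the condition `Star` of the data -/
theorem Data.star_iff {a b : ℕ} {L : Fin b → Submodule ℂ (Fin 4 → ℂ)}
    {Z : Set (PS 3)} (h : OnSkewLines a b L Z) (D : Data a b L Z) :
    Star D.lam D.z ↔ Coplanarity L Z := by
  have key : ∀ i j k, i ≠ j → ∀ s s', (finrank ℂ ↥((D.e i s).submodule ⊔
      (D.e k s').submodule ⊔ L j) = 3 ↔ ∃ (t : ℂ) (q : Fin 2 → ℂ),
      D.lam k (D.z k s') = t • D.lam i (D.z i s) + D.lam j q) := by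
    intro i j k hij s s'
    have h3 : finrank ℂ ↥((D.e i s).submodule ⊔ L j) = 3 :=
      finrank_rep_sup (h.1 j) (D.le i s) (h.2.1 i j hij)
    have h4 : (D.e i s).submodule ⊔ (D.e k s').submodule ⊔ L j =
        ((D.e i s).submodule ⊔ L j) ⊔ (D.e k s').submodule := by
      rw [sup_assoc, sup_assoc, sup_comm (L j)]
    rw [h4]
    constructor
    · intro h5
      have h6 : (D.e i s).submodule ⊔ L j = ((D.e i s).submodule ⊔ L j) ⊔ (D.e k s').submodule :=
        Submodule.eq_of_le_of_finrank_eq le_sup_left (by rw [h3, h5])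
      have h7 : (D.e k s').rep ∈ (D.e i s).submodule ⊔ L j := by
        rw [h6]
        apply Submodule.mem_sup_right
        rw [← submodule_le_iff]
      rw [Submodule.mem_sup] at h7
      obtain ⟨u, hu, v, hv, huv⟩ := h7
      rw [submodule_eq, Submodule.mem_span_singleton] at hu
      obtain ⟨t, rfl⟩ := hu
      rw [← D.range j] at hv
      obtain ⟨q, rfl⟩ := hv
      exact ⟨t, q, by rw [← D.rep, ← D.rep, huv]⟩
    · rintro ⟨t, q, htq⟩
      have h6 : (D.e k s').submodule ≤ (D.e i s).submodule ⊔ L j := by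
        rw [submodule_le_iff, D.rep, htq]
        apply Submodule.add_mem
        · apply Submodule.mem_sup_left
          rw [← D.rep]
          apply Submodule.smul_mem
          rw [← submodule_le_iff]
        · apply Submodule.mem_sup_right
          rw [← D.range j]
          exact ⟨q, rfl⟩
      rw [sup_eq_left.mpr h6, h3]
  constructor
  · intro hstar i j k hij hik hjk x hx hxL
    obtain ⟨s, rfl⟩ := D.all i x hx hxL
    obtain ⟨s', t, q, h1⟩ := hstar i j k hij hik hjk s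
    exact ⟨D.e k s', D.mem k s', D.le k s', (key i j k hij s s').mpr ⟨t, q, h1⟩⟩
  · intro hc i j k hij hik hjk s
    obtain ⟨y, hy, hyL, h1⟩ := hc i j k hij hik hjk (D.e i s) (D.mem i s) (D.le i s)
    obtain ⟨s', rfl⟩ := D.all k y hy hyL
    obtain ⟨t, q, h2⟩ := (key i j k hij s s').mp h1
    exact ⟨s', t, q, h2⟩

theorem isProjection_iff {n : ℕ} (P : PS n) (φ : (Fin (n + 1) → ℂ) →ₗ[ℂ] (Fin n → ℂ)) :
    IsProjection P φ ↔ IsProj P.rep φ := by
  unfold IsProjection IsProj
  rw [submodule_eq]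

/-- combinatorial half grids are geproci -/
theorem geproci_of_coplanarity {a b : ℕ} (ha : 0 < a) (hb : 2 ≤ b)
    {L : Fin b → Submodule ℂ (Fin 4 → ℂ)} {Z : Set (PS 3)} (h : OnSkewLines a b L Z)
    (hc : Coplanarity L Z) : IsGeprociType a b Z := by
  refine ⟨onSkew_finite ha h, ?_⟩
  obtain ⟨D⟩ := exists_data ha h
  have : Nontrivial (Fin b) := by
    obtain ⟨m, rfl⟩ : ∃ m, b = m + 2 := ⟨b - 2, by omega⟩
    infer_instance
  obtain ⟨α, hα⟩ := exists_dec D.lam D.skew
  have hstar := (D.star_iff h).mpr hc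
  have htri := tri_of_star D.dist D.skew hα hstar
  refine ⟨genPoly α D.z, genPoly_ne_zero D.dist D.skew hα, genPoly_hom, ?_⟩
  intro P hP φ hφ
  rw [isProjection_iff] at hφ
  obtain ⟨F, hF, ℓ, hI⟩ := ideal_eq ha D.dist D.skew hα htri hφ (gen_of_genPoly hP)
  refine ⟨F, ∏ i, lin (ℓ i), hF, ?_, ?_⟩
  · have := IsHomogeneous.prod (Finset.univ : Finset (Fin b)) (fun i => lin (ℓ i))
      (fun _ => 1) (fun i _ => lin_hom (ℓ i))
    simpa using this
  · rw [D.image h, hI]

/-- half grids satisfy the coplanarity condition -/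
theorem coplanarity_of_geproci {a b : ℕ} (ha : 0 < a) (hb : 2 ≤ b)
    {L : Fin b → Submodule ℂ (Fin 4 → ℂ)} {Z : Set (PS 3)} (h : OnSkewLines a b L Z)
    (hg : IsGeprociType a b Z) : Coplanarity L Z := by
  obtain ⟨D⟩ := exists_data ha h
  have : Nontrivial (Fin b) := by
    obtain ⟨m, rfl⟩ : ∃ m, b = m + 2 := ⟨b - 2, by omega⟩
    infer_instance
  obtain ⟨α, hα⟩ := exists_dec D.lam D.skew
  rw [← D.star_iff h]
  obtain ⟨_, G, hG0, ⟨d, hGd⟩, hG⟩ := hg
  apply star_of_tri D.dist D.skew hα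
  apply tri_of_general ha D.dist D.skew hα hG0
  intro P φ hPG hgen hφ
  have hP0 : P ≠ 0 := by
    rintro rfl
    obtain ⟨i, j, hij⟩ := exists_pair_ne (Fin b)
    exact gen_ne' ha hgen hij (map_zero _)
  set Q : PS 3 := Projectivization.mk ℂ P hP0 with hQ
  obtain ⟨c, hc⟩ := Projectivization.exists_smul_eq_mk_rep ℂ P hP0
  have hQG : eval Q.rep G ≠ 0 := by
    rw [hQ, ← hc, Units.smul_def, eval_hom hGd]
    exact mul_ne_zero (pow_ne_zero _ c.ne_zero) hPG
  have hφ' : IsProjection Q φ := by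
    refine ⟨hφ.1, ?_⟩
    rw [hφ.2, hQ, Projectivization.submodule_mk]
  obtain ⟨G₁, G₂, h1, h2, hI⟩ := hG Q hQG φ hφ'
  rw [D.image h] at hI
  apply exists_transverse (fun i => φ ∘ₗ D.lam i) (psi_inj ha D.skew hα hφ hgen)
    (psi_dist ha D.skew hα hφ hgen) D.z D.dist (psi_zn D.dist D.skew hα hφ hgen) h1
    (by rw [Fintype.card_fin]; exact h2)
  exact hI

end

end Pool.Agent.Work.MP_355410_ag
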