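import Pool.Agent.Work.MP_355410_ag.Basic

namespace Pool.Agent.Work.MP_355410_ag

open MvPolynomial Module

noncomputable section

/-- two irreducible linear forms whose kernels differ are relatively prime -/
theorem lin_relprime {n : ℕ} {ℓ ℓ' : (Fin n → ℂ) →ₗ[ℂ] ℂ} (h : ℓ ≠ 0) (_h' : ℓ' ≠ 0)
    {p : Fin n → ℂ} (hp : ℓ p = 0) (hp' : ℓ' p ≠ 0) : IsRelPrime (lin ℓ) (lin ℓ') := by
  rw [(lin_irred h).isRelPrime_iff_not_dvd]
  rintro ⟨c, hc⟩
  have := congrArg (eval p) hc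
  rw [eval_lin, map_mul, eval_lin, hp, zero_mul] at this
  exact hp' this

/-- planes in `ℂ³` pairwise distinct -/
theorem exists_node {ψ ψ' : (Fin 2 → ℂ) →ₗ[ℂ] (Fin 3 → ℂ)} (hψ : Function.Injective ψ)
    (hψ' : Function.Injective ψ') : ∃ p q, p ≠ 0 ∧ q ≠ 0 ∧ ψ p = ψ' q := by
  obtain ⟨ℓ, _, hℓ⟩ := exists_form hψ'
  -- kernel of `ℓ ∘ ψ` is nonzero
  have h1 := LinearMap.finrank_range_add_finrank_ker (ℓ ∘ₗ ψ)
  have h2 : finrank ℂ (LinearMap.range (ℓ ∘ₗ ψ)) ≤ 1 := by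
    have := Submodule.finrank_le (LinearMap.range (ℓ ∘ₗ ψ))
    simpa using this
  have h3 : 0 < finrank ℂ (LinearMap.ker (ℓ ∘ₗ ψ)) := by
    simp at h1
    omega
  have h4 := Module.finrank_pos_iff_exists_ne_zero.mp h3
  obtain ⟨⟨p, hp⟩, hp0⟩ := h4
  have hp0' : p ≠ 0 := fun h => hp0 (by ext1; exact h)
  have hp' : ℓ (ψ p) = 0 := by simpa using hp
  obtain ⟨q, hq⟩ := (hℓ (ψ p)).mp hp'
  refine ⟨p, q, hp0', ?_, hq.symm⟩
  rintro rfl
  rw [map_zero] at hq
  exact hp0' (hψ (by rw [← hq, map_zero]))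

/-- gluing of polynomials on a union of lines of the projective plane, no three of which
are concurrent -/
theorem extend {ι : Type*} [DecidableEq ι] (s : Finset ι)
    (ψ : ι → (Fin 2 → ℂ) →ₗ[ℂ] (Fin 3 → ℂ)) (hinj : ∀ i, Function.Injective (ψ i))
    (hnode : ∀ i j k, i ≠ j → i ≠ k → j ≠ k → ∀ p q r, ψ i p = ψ j q → ψ i p = ψ k r → p = 0)
    (hdist : ∀ i j, i ≠ j → LinearMap.range (ψ i) ≠ LinearMap.range (ψ j))
    (G : ι → MvPolynomial (Fin 2) ℂ)
    (hcomp : ∀ i j, i ≠ j → ∀ p q, ψ i p = ψ j q → eval p (G i) = eval q (G j)) :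
    ∃ F : MvPolynomial (Fin 3) ℂ, ∀ i ∈ s, pull (ψ i) F = G i := by
  choose ℓ hℓ0 hℓ using fun i => exists_form (hinj i)
  have hself : ∀ i p, ℓ i (ψ i p) = 0 := fun i p => (hℓ i _).mpr ⟨p, rfl⟩
  have hm0 : ∀ i j, i ≠ j → ℓ i ∘ₗ ψ j ≠ 0 := by
    intro i j hij h
    apply hdist i j hij
    symm
    apply Submodule.eq_of_le_of_finrank_eq
    · rintro _ ⟨p, rfl⟩
      rw [← hℓ i]
      exact LinearMap.congr_fun h p
    · rw [LinearMap.finrank_range_of_inj (hinj i), LinearMap.finrank_range_of_inj (hinj j)]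
  induction s using Finset.induction_on with
  | empty => exact ⟨0, by simp⟩
  | insert b s hb ih =>
    obtain ⟨F', hF'⟩ := ih
    have hdvd : ∀ i ∈ s, lin (ℓ i ∘ₗ ψ b) ∣ G b - pull (ψ b) F' := by
      intro i hi
      have hib : i ≠ b := by rintro rfl; exact hb hi
      apply lin_dvd (hm0 i b hib)
      intro p hp
      obtain ⟨q, hq⟩ := (hℓ i (ψ b p)).mp hp
      rw [map_sub, eval_pull, hcomp b i (Ne.symm hib) p q hq.symm, ← hq, ← eval_pull, hF' i hi,
        sub_self]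
    have hprod : ∏ i ∈ s, lin (ℓ i ∘ₗ ψ b) ∣ G b - pull (ψ b) F' := by
      apply Finset.prod_dvd_of_isRelPrime _ hdvd
      intro i hi j hj hij
      have hib : i ≠ b := by rintro rfl; exact hb hi
      have hjb : j ≠ b := by rintro rfl; exact hb hj
      obtain ⟨p, q, hp0, hq0, hpq⟩ := exists_node (hinj b) (hinj i)
      apply lin_relprime (hm0 i b hib) (hm0 j b hjb) (p := p)
      · change ℓ i (ψ b p) = 0
        rw [hpq]; exact hself i q
      · intro h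
        obtain ⟨r, hr⟩ := (hℓ j (ψ b p)).mp h
        exact hp0 (hnode b i j (Ne.symm hib) (Ne.symm hjb) hij p q r hpq hr.symm)
    obtain ⟨h, hh⟩ := hprod
    obtain ⟨ρ, hρ⟩ := LinearMap.exists_leftInverse_of_injective (ψ b)
      (LinearMap.ker_eq_bot.mpr (hinj b))
    refine ⟨F' + (∏ i ∈ s, lin (ℓ i)) * pull ρ h, ?_⟩
    intro i hi
    rw [Finset.mem_insert] at hi
    rcases hi with rfl | hi
    · rw [map_add, map_mul, map_prod]
      simp only [pull_lin, pull_pull, hρ, pull_id]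
      rw [← hh]; ring
    · rw [map_add, map_mul, map_prod, hF' i hi, Finset.prod_eq_zero hi, zero_mul, add_zero]
      rw [pull_lin]
      apply MvPolynomial.funext
      intro p
      rw [eval_lin, map_zero]
      exact hself i p

/-- a polynomial vanishing on pairwise distinct planes is divisible by the product of their
equations -/
theorem prod_dvd_of_vanish {ι : Type*} [DecidableEq ι] (s : Finset ι)
    (ψ : ι → (Fin 2 → ℂ) →ₗ[ℂ] (Fin 3 → ℂ)) (hinj : ∀ i, Function.Injective (ψ i))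
    (hdist : ∀ i j, i ≠ j → LinearMap.range (ψ i) ≠ LinearMap.range (ψ j))
    (ℓ : ι → (Fin 3 → ℂ) →ₗ[ℂ] ℂ) (hℓ0 : ∀ i, ℓ i ≠ 0)
    (hℓ : ∀ i w, ℓ i w = 0 ↔ w ∈ LinearMap.range (ψ i))
    (G : MvPolynomial (Fin 3) ℂ) (hG : ∀ i ∈ s, pull (ψ i) G = 0) :
    ∏ i ∈ s, lin (ℓ i) ∣ G := by
  apply Finset.prod_dvd_of_isRelPrime
  · intro i _ j _ hij
    have : ∃ p, ℓ j (ψ i p) ≠ 0 := by
      by_contra hcon
      push Not at hcon
      apply hdist i j hij
      apply Submodule.eq_of_le_of_finrank_eq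
      · rintro _ ⟨p, rfl⟩
        rw [← hℓ j]
        exact hcon p
      · rw [LinearMap.finrank_range_of_inj (hinj i), LinearMap.finrank_range_of_inj (hinj j)]
    obtain ⟨p, hp⟩ := this
    exact lin_relprime (hℓ0 i) (hℓ0 j) (p := ψ i p) ((hℓ i _).mpr ⟨p, rfl⟩) hp
  · intro i hi
    apply lin_dvd (hℓ0 i)
    intro w hw
    obtain ⟨p, rfl⟩ := (hℓ i w).mp hw
    rw [← eval_pull, hG i hi, map_zero]

end

end Pool.Agent.Work.MP_355410_ag
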