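import Pool.Agent.Work.MP_355410_ag.Suff2

namespace Pool.Agent.Work.MP_355410_ag

open MvPolynomial Module

noncomputable section

theorem ptIdeal_vanish {n : ℕ} {S : Set (Fin n → ℂ)} {H : MvPolynomial (Fin n) ℂ}
    (hH : H ∈ ptIdeal S) {w : Fin n → ℂ} (hw : w ∈ S) : eval w H = 0 := by
  have h : ptIdeal S ≤ RingHom.ker (eval w) := by
    unfold ptIdeal
    rw [Ideal.span_le]
    rintro F ⟨_, hF⟩
    exact hF w hw
  exact h hH

theorem mem_ptIdeal {n d : ℕ} {S : Set (Fin n → ℂ)} {H : MvPolynomial (Fin n) ℂ}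
    (hd : H.IsHomogeneous d) (h : ∀ w ∈ S, eval w H = 0) : H ∈ ptIdeal S :=
  Ideal.subset_span ⟨⟨d, hd⟩, h⟩

theorem exists_sep {n : ℕ} {w u : Fin n → ℂ} (h : ∀ t : ℂ, u ≠ t • w) :
    ∃ m : (Fin n → ℂ) →ₗ[ℂ] ℂ, m w = 0 ∧ m u ≠ 0 := by
  have h1 : u ∉ Submodule.span ℂ {w} := by
    intro hu
    rw [Submodule.mem_span_singleton] at hu
    obtain ⟨t, ht⟩ := hu
    exact h t ht.symm
  obtain ⟨f, hf, hle⟩ := Submodule.exists_le_ker_of_notMem h1
  exact ⟨f, hle (Submodule.mem_span_singleton_self w), hf⟩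

/-- If the ideal of the points is generated by forms of degrees `a` and `b`, there is a form
of degree `a` in the ideal which does not vanish on any of the lines. -/
theorem exists_transverse {ι : Type*} [Fintype ι] [DecidableEq ι] [Nontrivial ι] {a : ℕ}
    (ψ : ι → (Fin 2 → ℂ) →ₗ[ℂ] (Fin 3 → ℂ)) (hinj : ∀ i, Function.Injective (ψ i))
    (hdist : ∀ i j, i ≠ j → LinearMap.range (ψ i) ≠ LinearMap.range (ψ j))
    (z : ι → Fin a → Fin 2 → ℂ) (hz : ∀ i, Dist (z i))
    (hzn : ∀ i j, i ≠ j → ∀ s q, ψ i (z i s) ≠ ψ j q)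
    {G₁ G₂ : MvPolynomial (Fin 3) ℂ} (h1 : G₁.IsHomogeneous a)
    (h2 : G₂.IsHomogeneous (Fintype.card ι))
    (hI : ptIdeal {w | ∃ i s, w = ψ i (z i s)} = Ideal.span {G₁, G₂}) :
    ∃ F : MvPolynomial (Fin 3) ℂ, F.IsHomogeneous a ∧
      ∀ i, ∃ c : ℂ, c ≠ 0 ∧ pull (ψ i) F = C c * fp (z i) := by
  choose ℓ hℓ0 hℓ using fun i => exists_form (hinj i)
  set S : Set (Fin 3 → ℂ) := {w | ∃ i s, w = ψ i (z i s)} with hS
  obtain ⟨o⟩ : Nonempty ι := inferInstance
  have hG₁ : G₁ ∈ ptIdeal S := by rw [hI]; exact Ideal.subset_span (by simp)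
  have hG₂ : G₂ ∈ ptIdeal S := by rw [hI]; exact Ideal.subset_span (by simp)
  -- an element of the ideal which does not vanish on the line `o`
  obtain ⟨p, hp⟩ := exists_not_zero (fp_ne_zero (hz o))
  have hp' : ∀ s, om (z o s) p ≠ 0 := by
    rw [eval_fp, Finset.prod_ne_zero_iff] at hp
    exact fun s => hp s (Finset.mem_univ s)
  have hsep : ∀ i s, ∀ t : ℂ, ψ o p ≠ t • ψ i (z i s) := by
    intro i s t h
    by_cases hi : i = o
    · subst hi
      rw [← map_smul] at h
      have := hinj i h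
      apply hp' s
      rw [this, map_smul, om_self, smul_zero]
    · by_cases ht : t = 0
      · rw [ht, zero_smul] at h
        have : p = 0 := hinj o (by rw [h, map_zero])
        subst this
        by_cases hne : Nonempty (Fin a)
        · obtain ⟨s0⟩ := hne
          exact hp' s0 (by rw [map_zero])
        · exact hne ⟨s⟩
      · apply hzn i o hi s (t⁻¹ • p)
        rw [map_smul, h, smul_smul, inv_mul_cancel₀ ht, one_smul]
  choose m hm0 hm1 using fun i s => exists_sep (hsep i s)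
  have hH : ∃ H ∈ ptIdeal S, pull (ψ o) H ≠ 0 := by
    refine ⟨∏ i, ∏ s, lin (m i s), ?_, ?_⟩
    · apply mem_ptIdeal (IsHomogeneous.prod _ _ _ (fun i _ =>
        IsHomogeneous.prod _ _ _ (fun s _ => lin_hom (m i s))))
      rintro w ⟨i, s, rfl⟩
      rw [map_prod]
      apply Finset.prod_eq_zero (Finset.mem_univ i)
      rw [map_prod]
      apply Finset.prod_eq_zero (Finset.mem_univ s)
      rw [eval_lin, hm0]
    · intro h0
      have := congrArg (eval p) h0
      rw [eval_pull, map_prod, map_zero, Finset.prod_eq_zero_iff] at this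
      obtain ⟨i, _, hi⟩ := this
      rw [map_prod, Finset.prod_eq_zero_iff] at hi
      obtain ⟨s, _, hs⟩ := hi
      rw [eval_lin] at hs
      exact hm1 i s hs
  -- a form of degree `a` in the ideal not vanishing on some line
  have key : ∃ F : MvPolynomial (Fin 3) ℂ, F.IsHomogeneous a ∧ F ∈ ptIdeal S ∧
      ∃ i, pull (ψ i) F ≠ 0 := by
    by_cases hc1 : ∃ i, pull (ψ i) G₁ ≠ 0
    · exact ⟨G₁, h1, hG₁, hc1⟩
    push Not at hc1
    obtain ⟨H, hH, hHo⟩ := hH
    have hG2o : pull (ψ o) G₂ ≠ 0 := by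
      intro h0
      rw [hI, Ideal.mem_span_pair] at hH
      obtain ⟨A, B, hAB⟩ := hH
      apply hHo
      rw [← hAB, map_add, map_mul, map_mul, hc1 o, h0, mul_zero, mul_zero, add_zero]
    by_cases hba : Fintype.card ι ≤ a
    · -- multiply by a power of a linear form
      obtain ⟨u, hu⟩ : ∃ u : (Fin 3 → ℂ) →ₗ[ℂ] ℂ, u ∘ₗ ψ o ≠ 0 := by
        obtain ⟨ρ, hρ⟩ := LinearMap.exists_leftInverse_of_injective (ψ o)
          (LinearMap.ker_eq_bot.mpr (hinj o))
        refine ⟨LinearMap.proj 0 ∘ₗ ρ, ?_⟩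
        intro h
        have := LinearMap.congr_fun h (Pi.single 0 1)
        rw [LinearMap.comp_apply, LinearMap.comp_apply] at this
        have h3 : ρ (ψ o (Pi.single 0 1)) = Pi.single 0 1 := LinearMap.congr_fun hρ _
        rw [h3] at this
        simp at this
      refine ⟨G₂ * lin u ^ (a - Fintype.card ι), ?_, Ideal.mul_mem_right _ _ hG₂, o, ?_⟩
      · have h3 := h2.mul ((lin_hom u).pow (a - Fintype.card ι))
        have h4 : Fintype.card ι + 1 * (a - Fintype.card ι) = a := by omega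
        rwa [h4] at h3
      · rw [map_mul, map_pow, pull_lin]
        exact mul_ne_zero hG2o (pow_ne_zero _ (lin_ne_zero hu))
    · -- `G₁ = 0` and `G₂` is the product of the lines
      exfalso
      rw [not_le] at hba
      have hC : ∏ i, lin (ℓ i) ∈ ptIdeal S := by
        apply mem_ptIdeal (IsHomogeneous.prod _ _ _ (fun i _ => lin_hom (ℓ i)))
        rintro w ⟨i, s, rfl⟩
        rw [map_prod]
        apply Finset.prod_eq_zero (Finset.mem_univ i)
        rw [eval_lin, hℓ]
        exact ⟨z i s, rfl⟩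
      have hC0 : ∏ i, lin (ℓ i) ≠ 0 := by
        rw [Finset.prod_ne_zero_iff]
        exact fun i _ => lin_ne_zero (hℓ0 i)
      have hCh : (∏ i, lin (ℓ i)).IsHomogeneous (Fintype.card ι) := by
        have := IsHomogeneous.prod (Finset.univ : Finset ι) (fun i => lin (ℓ i))
          (fun _ => 1) (fun i _ => lin_hom (ℓ i))
        simpa using this
      have hd : ∏ i, lin (ℓ i) ∣ G₁ :=
        prod_dvd_of_vanish Finset.univ ψ hinj hdist ℓ hℓ0 hℓ G₁ (fun i _ => hc1 i)
      have hG10 : G₁ = 0 := by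
        by_contra hne
        obtain ⟨A, hA⟩ := hd
        have hA0 : A ≠ 0 := by rintro rfl; exact hne (by rw [hA, mul_zero])
        have := congrArg totalDegree hA
        rw [totalDegree_mul_of_isDomain hC0 hA0, h1.totalDegree hne, hCh.totalDegree hC0] at this
        omega
      rw [hI, Ideal.mem_span_pair] at hC
      obtain ⟨A, B, hAB⟩ := hC
      rw [hG10, mul_zero, zero_add] at hAB
      have hB0 : B ≠ 0 := by rintro rfl; exact hC0 (by rw [← hAB, zero_mul])
      have hG20 : G₂ ≠ 0 := by rintro rfl; exact hC0 (by rw [← hAB, mul_zero])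
      have hdeg := congrArg totalDegree hAB
      rw [totalDegree_mul_of_isDomain hB0 hG20, h2.totalDegree hG20, hCh.totalDegree hC0] at hdeg
      have hB1 : B.totalDegree = 0 := by omega
      obtain ⟨β, hβ⟩ : ∃ β, B = C β := ⟨_, totalDegree_eq_zero_iff_eq_C.mp hB1⟩
      have hβ0 : β ≠ 0 := by rintro rfl; exact hB0 (by rw [hβ, map_zero])
      have h5 := congrArg (pull (ψ o)) hAB
      rw [map_mul, map_prod, Finset.prod_eq_zero (Finset.mem_univ o)] at h5
      · rcases mul_eq_zero.mp h5 with h | h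
        · rw [hβ] at h
          unfold pull at h
          rw [algHom_C] at h
          rw [algebraMap_eq, C_eq_zero] at h
          exact hβ0 h
        · exact hG2o h
      · rw [pull_lin]
        apply MvPolynomial.funext
        intro q
        rw [eval_lin, map_zero, LinearMap.comp_apply, hℓ]
        exact ⟨q, rfl⟩
  obtain ⟨F, hFa, hFI, i, hi⟩ := key
  have hFz : ∀ j s, eval (z j s) (pull (ψ j) F) = 0 := by
    intro j s
    rw [eval_pull]
    exact ptIdeal_vanish hFI ⟨j, s, rfl⟩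
  have hall : ∀ j, pull (ψ j) F ≠ 0 := by
    intro j
    by_cases hji : j = i
    · rw [hji]; exact hi
    intro h0
    obtain ⟨p, q, hp0, hq0, hpq⟩ := exists_node (hinj i) (hinj j)
    apply hi
    apply zero_of_zeros (hz i) (pull_hom _ hFa) (hFz i) (p := p)
    · intro s hs
      obtain ⟨t, ht⟩ := om_eq_zero ((hz i).1 s) hs
      have ht0 : t ≠ 0 := by rintro rfl; exact hp0 (by rw [ht, zero_smul])
      apply hzn i j (Ne.symm hji) s (t⁻¹ • q)
      rw [map_smul, ← hpq, ht, map_smul, smul_smul, inv_mul_cancel₀ ht0, one_smul]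
    · rw [eval_pull, hpq, ← eval_pull, h0, map_zero]
  refine ⟨F, hFa, ?_⟩
  intro j
  obtain ⟨c, hc⟩ := fp_unique (hz j) (pull_hom _ hFa) (hFz j)
  refine ⟨c, ?_, hc⟩
  rintro rfl
  exact hall j (by rw [hc, map_zero, zero_mul])

end

end Pool.Agent.Work.MP_355410_ag
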