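import Pool.Agent.Work.MP_355410_ag.Nec

namespace Pool.Agent.Work.MP_355410_ag

open MvPolynomial Module

noncomputable section

/-- every nonzero vector is the centre of a projection -/
theorem exists_proj {n : ℕ} {P : Fin (n + 1) → ℂ} (hP : P ≠ 0) :
    ∃ φ : (Fin (n + 1) → ℂ) →ₗ[ℂ] (Fin n → ℂ), IsProj P φ := by
  have h1 : finrank ℂ ((Fin (n + 1) → ℂ) ⧸ Submodule.span ℂ {P}) = finrank ℂ (Fin n → ℂ) := by
    have h2 := Submodule.finrank_quotient_add_finrank (Submodule.span ℂ {P})
    rw [finrank_span_singleton hP] at h2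
    simp at h2 ⊢
    omega
  let e := LinearEquiv.ofFinrankEq _ _ h1
  refine ⟨e.toLinearMap ∘ₗ Submodule.mkQ _, ?_, ?_⟩
  · rw [LinearMap.coe_comp]
    exact e.surjective.comp (Submodule.mkQ_surjective _)
  · rw [LinearEquiv.ker_comp, Submodule.ker_mkQ]

section

variable {ι : Type*} {lam : ι → (Fin 2 → ℂ) →ₗ[ℂ] (Fin 4 → ℂ)}
  {α : ι → ι → (Fin 4 → ℂ) →ₗ[ℂ] (Fin 2 → ℂ)} {a : ℕ} {z : ι → Fin a → Fin 2 → ℂ}

theorem tri_at (hα : ∀ i j, i ≠ j → ∀ P, P = lam i (α i j P) + lam j (α j i P)) {P : Fin 4 → ℂ}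
    {φ : (Fin 4 → ℂ) →ₗ[ℂ] (Fin 3 → ℂ)} (hφ : IsProj P φ)
    {F : MvPolynomial (Fin 3) ℂ} (hFa : F.IsHomogeneous a)
    (hF : ∀ i, ∃ c : ℂ, c ≠ 0 ∧ pull (φ ∘ₗ lam i) F = C c * fp (z i)) {i j k : ι}
    (hij : i ≠ j) (hik : i ≠ k) (hjk : j ≠ k) :
    eval (α i j P) (fp (z i)) * eval (α j k P) (fp (z j)) * eval (α k i P) (fp (z k)) =
      (-1) ^ a * (eval (α j i P) (fp (z j)) * eval (α k j P) (fp (z k)) *
        eval (α i k P) (fp (z i))) := by
  choose c hc0 hc using hF
  have h : ∀ i j, i ≠ j → c i * eval (α i j P) (fp (z i)) =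
      (-1) ^ a * (c j * eval (α j i P) (fp (z j))) := by
    intro i j hij
    have h1 : φ (lam i (α i j P)) = (-1 : ℂ) • φ (lam j (α j i P)) := by
      have := congrArg φ (hα i j hij P)
      rw [hφ.map_self, map_add] at this
      rw [neg_one_smul]
      exact eq_neg_of_add_eq_zero_left this.symm
    have h2 : eval (α i j P) (pull (φ ∘ₗ lam i) F) = c i * eval (α i j P) (fp (z i)) := by
      rw [hc i, map_mul, eval_C]
    have h3 : eval (α j i P) (pull (φ ∘ₗ lam j) F) = c j * eval (α j i P) (fp (z j)) := by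
      rw [hc j, map_mul, eval_C]
    rw [← h2, ← h3, eval_pull, eval_pull, LinearMap.comp_apply, LinearMap.comp_apply, h1,
      eval_hom hFa]
  have e1 := h i j hij
  have e2 := h j k hjk
  have e3 := h k i (Ne.symm hik)
  have hne : c i * c j * c k ≠ 0 := mul_ne_zero (mul_ne_zero (hc0 i) (hc0 j)) (hc0 k)
  have hsq : ((-1 : ℂ) ^ a) * (-1) ^ a = 1 := by
    rw [← mul_pow]; norm_num
  apply mul_left_cancel₀ hne
  have e4 : (c i * eval (α i j P) (fp (z i))) * (c j * eval (α j k P) (fp (z j))) *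
      (c k * eval (α k i P) (fp (z k))) =
      ((-1) ^ a * (c j * eval (α j i P) (fp (z j)))) *
      ((-1) ^ a * (c k * eval (α k j P) (fp (z k)))) *
      ((-1) ^ a * (c i * eval (α i k P) (fp (z i)))) := by rw [e1, e2, e3]
  linear_combination e4 + ((-1) ^ a * c i * c j * c k * (eval (α j i P) (fp (z j)) *
    eval (α k j P) (fp (z k)) * eval (α i k P) (fp (z i)))) * hsq

/-- the triangle identity from the projections from the general points -/
theorem tri_of_general [Fintype ι] [DecidableEq ι] [Nontrivial ι] (ha : 0 < a)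
    (hz : ∀ i, Dist (z i)) (hs : ∀ i j, i ≠ j → Skew (lam i) (lam j))
    (hα : ∀ i j, i ≠ j → ∀ P, P = lam i (α i j P) + lam j (α j i P))
    {G : MvPolynomial (Fin 4) ℂ} (hG : G ≠ 0)
    (h : ∀ P φ, eval P G ≠ 0 → Gen α z P → IsProj P φ →
      ∃ F : MvPolynomial (Fin 3) ℂ, F.IsHomogeneous a ∧
        ∀ i, ∃ c : ℂ, c ≠ 0 ∧ pull (φ ∘ₗ lam i) F = C c * fp (z i)) : Tri α z := by
  intro i j k hij hik hjk
  set T : MvPolynomial (Fin 4) ℂ :=
    pull (α i j) (fp (z i)) * pull (α j k) (fp (z j)) * pull (α k i) (fp (z k)) -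
      C ((-1) ^ a) * (pull (α j i) (fp (z j)) * pull (α k j) (fp (z k)) *
        pull (α i k) (fp (z i))) with hT
  have hTe : ∀ P, eval P T = eval (α i j P) (fp (z i)) * eval (α j k P) (fp (z j)) *
      eval (α k i P) (fp (z k)) - (-1) ^ a * (eval (α j i P) (fp (z j)) *
        eval (α k j P) (fp (z k)) * eval (α i k P) (fp (z i))) := by
    intro P
    rw [hT]
    simp only [map_sub, map_mul, eval_pull, eval_C]
  have h0 : G * genPoly α z * T = 0 := by
    apply MvPolynomial.funext
    intro P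
    rw [map_mul, map_mul, map_zero]
    by_cases h1 : eval P G = 0
    · rw [h1, zero_mul, zero_mul]
    by_cases h2 : eval P (genPoly α z) = 0
    · rw [h2, mul_zero, zero_mul]
    have hg := gen_of_genPoly h2
    have hP : P ≠ 0 := by
      rintro rfl
      exact gen_ne' ha hg hij (map_zero _)
    obtain ⟨φ, hφ⟩ := exists_proj hP
    obtain ⟨F, hFa, hF⟩ := h P φ h1 hg hφ
    have := tri_at hα hφ hFa hF hij hik hjk
    rw [hTe, this, sub_self, mul_zero]
  have hT0 : T = 0 :=
    (mul_eq_zero.mp h0).resolve_left (mul_ne_zero hG (genPoly_ne_zero hz hs hα))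
  intro P
  have := hTe P
  rw [hT0, map_zero] at this
  exact (sub_eq_zero.mp this.symm)

theorem star_of_tri (hz : ∀ i, Dist (z i)) (hs : ∀ i j, i ≠ j → Skew (lam i) (lam j))
    (hα : ∀ i j, i ≠ j → ∀ P, P = lam i (α i j P) + lam j (α j i P))
    (htri : Tri α z) : Star lam z := by
  intro i j k hij hik hjk s
  set w := α k j (lam i (z i s)) with hw
  have hdec := hα k j (Ne.symm hjk) (lam i (z i s))
  rw [← hw] at hdec
  have hfw : eval w (fp (z k)) = 0 := by
    by_contra hne
    -- choose `q`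
    have hsurj : pull (α i k ∘ₗ lam j) (fp (z i)) ≠ 0 := by
      intro h0
      obtain ⟨u, hu⟩ := exists_not_zero (fp_ne_zero (hz i))
      apply hu
      have h1 := hα j k hjk (lam i u)
      have h2 : lam j (α j k (lam i u)) = lam i u + lam k (-(α k j (lam i u))) := by
        rw [map_neg]; linear_combination -h1
      have h3 : α i k (lam j (α j k (lam i u))) = u := alpha_eq hs hα hik h2
      have h4 := congrArg (eval (α j k (lam i u))) h0
      rw [eval_pull, LinearMap.comp_apply, h3, map_zero] at h4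
      exact h4
    obtain ⟨q, hq⟩ := exists_not_zero (mul_ne_zero (fp_ne_zero (hz j)) hsurj)
    rw [map_mul, eval_pull, LinearMap.comp_apply, mul_ne_zero_iff] at hq
    obtain ⟨hq1, hq2⟩ := hq
    set r := α i k (lam j q) with hr
    have key : ∀ t : ℂ, t ≠ 0 → eval (z i s + t • r) (fp (z i)) = 0 := by
      intro t ht
      have h1 := htri i j k hij hik hjk (lam i (z i s) + lam j (t • q))
      have e1 : α i j (lam i (z i s) + lam j (t • q)) = z i s := by
        rw [map_add, alpha_self hs hα hij, alpha_other hs hα hij, add_zero]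
      have e2 : α j i (lam i (z i s) + lam j (t • q)) = t • q := by
        rw [map_add, alpha_other hs hα (Ne.symm hij), alpha_self hs hα (Ne.symm hij), zero_add]
      have e3 : α k j (lam i (z i s) + lam j (t • q)) = w := by
        rw [map_add, alpha_other hs hα (Ne.symm hjk), add_zero]
      have e4 : α i k (lam i (z i s) + lam j (t • q)) = z i s + t • r := by
        rw [map_add, alpha_self hs hα hik, map_smul, map_smul]
      have e5 : eval (z i s) (fp (z i)) = 0 := by
        rw [eval_fp, Finset.prod_eq_zero (Finset.mem_univ s) (om_self _)]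
      rw [e1, e2, e3, e4, e5, zero_mul, zero_mul, eval_hom (fp_hom _)] at h1
      have h2 := h1.symm
      simp only [mul_eq_zero] at h2
      rcases h2 with h2 | ((h2 | h2) | h2) | h2
      · exact absurd h2 (pow_ne_zero _ (by norm_num))
      · exact absurd h2 (pow_ne_zero _ ht)
      · exact absurd h2 hq1
      · exact absurd h2 hne
      · exact h2
    -- a polynomial in two variables
    set ψ : (Fin 2 → ℂ) →ₗ[ℂ] (Fin 2 → ℂ) :=
      { toFun := fun v => v 0 • z i s + v 1 • r
        map_add' := by intro v v'; simp only [Pi.add_apply, add_smul]; abel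
        map_smul' := by
          intro c v
          simp only [Pi.smul_apply, smul_eq_mul, mul_smul, smul_add, RingHom.id_apply] }
      with hψ
    have hψa : ∀ v, ψ v = v 0 • z i s + v 1 • r := fun v => rfl
    have h5 : pull ψ (fp (z i)) * (X 0 * X 1) = 0 := by
      apply MvPolynomial.funext
      intro v
      rw [map_mul, map_mul, eval_pull, eval_X, eval_X, hψa, map_zero]
      by_cases h0 : v 0 = 0
      · rw [h0, zero_mul, mul_zero]
      by_cases h1 : v 1 = 0
      · rw [h1, mul_zero, mul_zero]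
      have h2 : v 0 • z i s + v 1 • r = v 0 • (z i s + (v 1 / v 0) • r) := by
        rw [smul_add, smul_smul, mul_div_cancel₀ _ h0]
      rw [h2, eval_hom (fp_hom _), key _ (div_ne_zero h1 h0), mul_zero, zero_mul]
    have h6 : pull ψ (fp (z i)) = 0 :=
      (mul_eq_zero.mp h5).resolve_right (mul_ne_zero (X_ne_zero 0) (X_ne_zero 1))
    have h7 := congrArg (eval (![0, 1] : Fin 2 → ℂ)) h6
    rw [eval_pull, hψa, map_zero] at h7
    simp only [Matrix.cons_val_zero, Matrix.cons_val_one, zero_smul, one_smul, zero_add] at h7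
    exact hq2 h7
  rw [eval_fp, Finset.prod_eq_zero_iff] at hfw
  obtain ⟨s', _, hs'⟩ := hfw
  obtain ⟨t, ht⟩ := om_eq_zero ((hz k).1 s') hs'
  have ht0 : t ≠ 0 := by
    rintro rfl
    rw [zero_smul] at ht
    rw [ht, map_zero, zero_add] at hdec
    have := (hs i j hij) (z i s) (-(α j k (lam i (z i s)))) (by
      rw [map_neg]; linear_combination hdec)
    exact (hz i).1 s this.1
  refine ⟨s', t⁻¹, -(t⁻¹ • α j k (lam i (z i s))), ?_⟩
  rw [ht, map_smul] at hdec
  rw [map_neg, map_smul]
  generalize α j k (lam i (z i s)) = y at hdec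
  rw [hdec, smul_add, smul_smul, inv_mul_cancel₀ ht0, one_smul, add_neg_cancel_right]

end

end

end Pool.Agent.Work.MP_355410_ag
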