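import Pool.Agent.Work.MP_355410_ag.CI

namespace Pool.Agent.Work.MP_355410_ag

open MvPolynomial Module

noncomputable section

/-- two planes of `ℂ⁴` (lines of `ℙ³`), given by parametrisations, which are skew -/
def Skew (l m : (Fin 2 → ℂ) →ₗ[ℂ] (Fin 4 → ℂ)) : Prop :=
  ∀ p q, l p + m q = 0 → p = 0 ∧ q = 0

theorem Skew.uniq {l m : (Fin 2 → ℂ) →ₗ[ℂ] (Fin 4 → ℂ)} (h : Skew l m) {p q p' q' : Fin 2 → ℂ}
    (e : l p + m q = l p' + m q') : p = p' ∧ q = q' := by
  have := h (p - p') (q - q') (by rw [map_sub, map_sub]; linear_combination e)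
  exact ⟨sub_eq_zero.mp this.1, sub_eq_zero.mp this.2⟩

theorem Skew.exists_dec {l m : (Fin 2 → ℂ) →ₗ[ℂ] (Fin 4 → ℂ)} (h : Skew l m) :
    ∃ α β : (Fin 4 → ℂ) →ₗ[ℂ] (Fin 2 → ℂ), ∀ P, P = l (α P) + m (β P) := by
  have hinj : Function.Injective (l.coprod m) := by
    rw [injective_iff_map_eq_zero]
    rintro ⟨p, q⟩ hpq
    rw [LinearMap.coprod_apply] at hpq
    obtain ⟨h1, h2⟩ := h p q hpq
    simp [h1, h2]
  have hdim : finrank ℂ ((Fin 2 → ℂ) × (Fin 2 → ℂ)) = finrank ℂ (Fin 4 → ℂ) := by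
    rw [finrank_prod]; simp
  set e := LinearMap.linearEquivOfInjective (l.coprod m) hinj hdim with he
  refine ⟨LinearMap.fst ℂ _ _ ∘ₗ e.symm.toLinearMap, LinearMap.snd ℂ _ _ ∘ₗ e.symm.toLinearMap, ?_⟩
  intro P
  have h1 : e (e.symm P) = P := e.apply_symm_apply P
  conv_lhs => rw [← h1]
  rw [he, LinearMap.linearEquivOfInjective_apply, LinearMap.coprod_apply]
  rfl

theorem exists_dec {ι : Type*} (lam : ι → (Fin 2 → ℂ) →ₗ[ℂ] (Fin 4 → ℂ))
    (hs : ∀ i j, i ≠ j → Skew (lam i) (lam j)) :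
    ∃ α : ι → ι → (Fin 4 → ℂ) →ₗ[ℂ] (Fin 2 → ℂ),
      ∀ i j, i ≠ j → ∀ P, P = lam i (α i j P) + lam j (α j i P) := by
  classical
  have h1 : ∀ i j, ∃ α : (Fin 4 → ℂ) →ₗ[ℂ] (Fin 2 → ℂ), i ≠ j → ∀ P, ∃ q, P = lam i (α P) + lam j q := by
    intro i j
    by_cases hij : i = j
    · exact ⟨0, fun h => absurd hij h⟩
    · obtain ⟨α, β, h⟩ := (hs i j hij).exists_dec
      exact ⟨α, fun _ P => ⟨β P, h P⟩⟩
  choose α hα using h1
  refine ⟨α, ?_⟩
  intro i j hij P
  obtain ⟨q, hq⟩ := hα i j hij P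
  obtain ⟨r, hr⟩ := hα j i (Ne.symm hij) P
  have : lam i (α i j P) + lam j q = lam i r + lam j (α j i P) := by
    rw [add_comm (lam i r)]
    exact hq.symm.trans hr
  obtain ⟨_, h2⟩ := (hs i j hij).uniq this
  rw [← h2]; exact hq

section

variable {ι : Type*} {lam : ι → (Fin 2 → ℂ) →ₗ[ℂ] (Fin 4 → ℂ)}
  {α : ι → ι → (Fin 4 → ℂ) →ₗ[ℂ] (Fin 2 → ℂ)}

theorem alpha_self (hs : ∀ i j, i ≠ j → Skew (lam i) (lam j))
    (hα : ∀ i j, i ≠ j → ∀ P, P = lam i (α i j P) + lam j (α j i P)) {i j : ι} (hij : i ≠ j)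
    (p : Fin 2 → ℂ) : α i j (lam i p) = p := by
  have h := hα i j hij (lam i p)
  have h2 : lam i p + lam j 0 = lam i (α i j (lam i p)) + lam j (α j i (lam i p)) := by
    rw [map_zero, add_zero]; exact h
  exact ((hs i j hij).uniq h2).1.symm

theorem alpha_other (hs : ∀ i j, i ≠ j → Skew (lam i) (lam j))
    (hα : ∀ i j, i ≠ j → ∀ P, P = lam i (α i j P) + lam j (α j i P)) {i j : ι} (hij : i ≠ j)
    (p : Fin 2 → ℂ) : α i j (lam j p) = 0 := by
  have h := hα i j hij (lam j p)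
  have h2 : lam i 0 + lam j p = lam i (α i j (lam j p)) + lam j (α j i (lam j p)) := by
    rw [map_zero, zero_add]; exact h
  exact ((hs i j hij).uniq h2).1.symm

/-- `α` is determined by a decomposition -/
theorem alpha_eq (hs : ∀ i j, i ≠ j → Skew (lam i) (lam j))
    (hα : ∀ i j, i ≠ j → ∀ P, P = lam i (α i j P) + lam j (α j i P)) {i j : ι} (hij : i ≠ j)
    {P : Fin 4 → ℂ} {p q : Fin 2 → ℂ} (h : P = lam i p + lam j q) : α i j P = p := by
  rw [h, map_add, alpha_self hs hα hij, alpha_other hs hα hij, add_zero]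

/-- going round a triangle of projections is `-1` -/
theorem round (hs : ∀ i j, i ≠ j → Skew (lam i) (lam j))
    (hα : ∀ i j, i ≠ j → ∀ P, P = lam i (α i j P) + lam j (α j i P)) {i j k : ι} (hij : i ≠ j)
    (hik : i ≠ k) (hjk : j ≠ k) (p : Fin 2 → ℂ) :
    α i j (lam k (α k i (lam j (α j k (lam i p))))) = -p := by
  have h1 := hα j k hjk (lam i p)
  have h2 : α k i (lam j (α j k (lam i p))) = - α k j (lam i p) := by
    apply alpha_eq hs hα (Ne.symm hik) (q := p)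
    rw [map_neg]
    linear_combination -h1
  rw [h2]
  apply alpha_eq hs hα hij (q := α j k (lam i p))
  rw [map_neg, map_neg]
  linear_combination h1

theorem om_map (θ : (Fin 2 → ℂ) →ₗ[ℂ] (Fin 2 → ℂ)) :
    ∃ D : ℂ, ∀ u v, om (θ u) (θ v) = D * om u v := by
  refine ⟨om (θ (Pi.single 0 1)) (θ (Pi.single 1 1)), ?_⟩
  intro u v
  have hu := map_eq_sum θ u
  have hv := map_eq_sum θ v
  rw [Fin.sum_univ_two] at hu hv
  rw [hu, hv]
  simp only [om_apply, Pi.add_apply, Pi.smul_apply, smul_eq_mul]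
  ring

/-- the combinatorial condition: the points of `Z i` and `Z k` have the same projections
from the line `j` -/
def Star {a : ℕ} (lam : ι → (Fin 2 → ℂ) →ₗ[ℂ] (Fin 4 → ℂ)) (z : ι → Fin a → Fin 2 → ℂ) : Prop :=
  ∀ i j k, i ≠ j → i ≠ k → j ≠ k → ∀ s, ∃ s', ∃ (t : ℂ) (q : Fin 2 → ℂ),
    lam k (z k s') = t • lam i (z i s) + lam j q

theorem match_const {a : ℕ} {z : ι → Fin a → Fin 2 → ℂ} (hz : ∀ i, Dist (z i))
    (hs : ∀ i j, i ≠ j → Skew (lam i) (lam j))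
    (hα : ∀ i j, i ≠ j → ∀ P, P = lam i (α i j P) + lam j (α j i P))
    (hstar : Star lam z) {i j k : ι} (hij : i ≠ j) (hik : i ≠ k) (hjk : j ≠ k) :
    ∃ c : ℂ, ∀ P, eval (α i j P) (fp (z i)) = c * eval (α k j P) (fp (z k)) := by
  choose σ t q hσ using hstar i j k hij hik hjk
  set θ : (Fin 2 → ℂ) →ₗ[ℂ] (Fin 2 → ℂ) := α i j ∘ₗ lam k with hθ
  have h1 : ∀ s, θ (z k (σ s)) = t s • z i s := by
    intro s
    change α i j (lam k (z k (σ s))) = _
    apply alpha_eq hs hα hij (q := q s)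
    rw [map_smul]; exact hσ s
  have ht : ∀ s, t s ≠ 0 := by
    intro s h0
    have h2 := hσ s
    rw [h0, zero_smul, zero_add] at h2
    have h3 := (hs k j (Ne.symm hjk)) (z k (σ s)) (-(q s)) (by rw [map_neg, h2]; simp)
    exact (hz k).1 _ h3.1
  have hinj : Function.Injective σ := by
    intro s s' hss
    by_contra hne
    have e1 := h1 s
    have e2 := h1 s'
    rw [← hss] at e2
    apply (hz i).2 s s' hne
    have e3 : z i s' = (t s' )⁻¹ • θ (z k (σ s)) := by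
      rw [e2, smul_smul, inv_mul_cancel₀ (ht s'), one_smul]
    rw [e3, e1, smul_smul, map_smul, om_self, smul_zero]
  have hbij : Function.Bijective σ := Finite.injective_iff_bijective.mp hinj
  obtain ⟨D, hD⟩ := om_map θ
  refine ⟨(∏ s, (t s)⁻¹) * D ^ a, ?_⟩
  intro P
  have h4 : α i j P = θ (α k j P) := by
    have := hα k j (Ne.symm hjk) P
    conv_lhs => rw [this]
    rw [map_add, alpha_other hs hα hij, add_zero]
    rfl
  rw [h4, eval_fp, eval_fp]
  have h5 : ∀ s, om (z i s) (θ (α k j P)) = (t s)⁻¹ * (D * om (z k (σ s)) (α k j P)) := by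
    intro s
    rw [← hD, h1 s, om_smul_left, ← mul_assoc, inv_mul_cancel₀ (ht s), one_mul]
  rw [Finset.prod_congr rfl (fun s _ => h5 s), Finset.prod_mul_distrib, Finset.prod_mul_distrib,
    Finset.prod_const, Finset.card_univ, Fintype.card_fin]
  rw [hbij.prod_comp (fun s' => om (z k s') (α k j P))]
  ring

/-- the triangle identity -/
def Tri {a : ℕ} (α : ι → ι → (Fin 4 → ℂ) →ₗ[ℂ] (Fin 2 → ℂ)) (z : ι → Fin a → Fin 2 → ℂ) : Prop :=
  ∀ i j k, i ≠ j → i ≠ k → j ≠ k → ∀ P,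
    eval (α i j P) (fp (z i)) * eval (α j k P) (fp (z j)) * eval (α k i P) (fp (z k)) =
      (-1) ^ a * (eval (α j i P) (fp (z j)) * eval (α k j P) (fp (z k)) *
        eval (α i k P) (fp (z i)))

theorem tri_of_star {a : ℕ} {z : ι → Fin a → Fin 2 → ℂ} (hz : ∀ i, Dist (z i))
    (hs : ∀ i j, i ≠ j → Skew (lam i) (lam j))
    (hα : ∀ i j, i ≠ j → ∀ P, P = lam i (α i j P) + lam j (α j i P))
    (hstar : Star lam z) : Tri α z := by
  intro i j k hij hik hjk P
  obtain ⟨c, hc⟩ := match_const hz hs hα hstar hij hik hjk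
  obtain ⟨c', hc'⟩ := match_const hz hs hα hstar hjk (Ne.symm hij) (Ne.symm hik)
  obtain ⟨c'', hc''⟩ := match_const hz hs hα hstar (Ne.symm hik) (Ne.symm hjk) hij
  obtain ⟨p, hp⟩ := exists_not_zero (fp_ne_zero (hz i))
  have e1 := hc' (lam i p)
  rw [alpha_self hs hα hik] at e1
  have e2 := hc'' (lam j (α j k (lam i p)))
  rw [alpha_self hs hα (Ne.symm hij)] at e2
  have e3 := hc (lam k (α k i (lam j (α j k (lam i p)))))
  rw [alpha_self hs hα (Ne.symm hjk), round hs hα hij hik hjk] at e3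
  have e4 : eval (-p) (fp (z i)) = (-1) ^ a * eval p (fp (z i)) := by
    have := eval_hom (fp_hom (z i)) (-1) p
    rw [neg_one_smul] at this
    exact this
  have e5 : (-1) ^ a * eval p (fp (z i)) = c * c' * c'' * eval p (fp (z i)) := by
    rw [← e4, e3, e2, e1]; ring
  have e6 : c * c' * c'' = (-1) ^ a := (mul_right_cancel₀ hp e5).symm
  rw [hc P, hc' P, hc'' P, ← e6]
  ring

end

end

end Pool.Agent.Work.MP_355410_ag
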