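import Pool.Agent.Work.MP_355410_ag.Skew

namespace Pool.Agent.Work.MP_355410_ag

open MvPolynomial Module

noncomputable section

/-- homogeneous components of a pulled back polynomial -/
theorem pull_component {m n : ℕ} (ψ : (Fin m → ℂ) →ₗ[ℂ] (Fin n → ℂ)) (F : MvPolynomial (Fin n) ℂ)
    (d : ℕ) : pull ψ (homogeneousComponent d F) = homogeneousComponent d (pull ψ F) := by
  conv_rhs => rw [← sum_homogeneousComponent F]
  rw [map_sum, map_sum]
  have h : ∀ k, homogeneousComponent d (pull ψ (homogeneousComponent k F)) =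
      if d = k then pull ψ (homogeneousComponent k F) else 0 := by
    intro k
    apply homogeneousComponent_of_mem
    exact pull_hom ψ (homogeneousComponent_isHomogeneous k F)
  rw [Finset.sum_congr rfl (fun k _ => h k), Finset.sum_ite_eq]
  split_ifs with hd
  · rfl
  · rw [Finset.mem_range, not_lt] at hd
    rw [homogeneousComponent_eq_zero _ _ (by omega), map_zero]

/-- the projection data: `φ` is the projection from the point `P` -/
def IsProj {n : ℕ} (P : Fin (n + 1) → ℂ) (φ : (Fin (n + 1) → ℂ) →ₗ[ℂ] (Fin n → ℂ)) : Prop :=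
  Function.Surjective φ ∧ LinearMap.ker φ = Submodule.span ℂ {P}

theorem IsProj.eq_smul {n : ℕ} {P : Fin (n + 1) → ℂ}
    {φ : (Fin (n + 1) → ℂ) →ₗ[ℂ] (Fin n → ℂ)} (h : IsProj P φ) {x y : Fin (n + 1) → ℂ}
    (hxy : φ x = φ y) : ∃ t : ℂ, x = y + t • P := by
  have h1 : x - y ∈ LinearMap.ker φ := by
    rw [LinearMap.mem_ker, map_sub, hxy, sub_self]
  rw [h.2, Submodule.mem_span_singleton] at h1
  obtain ⟨t, ht⟩ := h1
  exact ⟨t, by rw [ht]; abel⟩

theorem IsProj.map_self {n : ℕ} {P : Fin (n + 1) → ℂ}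
    {φ : (Fin (n + 1) → ℂ) →ₗ[ℂ] (Fin n → ℂ)} (h : IsProj P φ) : φ P = 0 := by
  have : P ∈ LinearMap.ker φ := by rw [h.2]; exact Submodule.mem_span_singleton_self P
  exact this

section

variable {ι : Type*} {lam : ι → (Fin 2 → ℂ) →ₗ[ℂ] (Fin 4 → ℂ)}
  {α : ι → ι → (Fin 4 → ℂ) →ₗ[ℂ] (Fin 2 → ℂ)} {a : ℕ} {z : ι → Fin a → Fin 2 → ℂ}

/-- the centre of projection is general -/
def Gen (α : ι → ι → (Fin 4 → ℂ) →ₗ[ℂ] (Fin 2 → ℂ)) (z : ι → Fin a → Fin 2 → ℂ)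
    (P : Fin 4 → ℂ) : Prop :=
  (∀ i j, i ≠ j → eval (α i j P) (fp (z i)) ≠ 0) ∧
  (∀ i j k, i ≠ j → i ≠ k → j ≠ k → om (α i j P) (α i k P) ≠ 0)

theorem node (hs : ∀ i j, i ≠ j → Skew (lam i) (lam j))
    (hα : ∀ i j, i ≠ j → ∀ P, P = lam i (α i j P) + lam j (α j i P)) {P : Fin 4 → ℂ}
    {φ : (Fin 4 → ℂ) →ₗ[ℂ] (Fin 3 → ℂ)} (hφ : IsProj P φ) {i j : ι} (hij : i ≠ j)
    {p q : Fin 2 → ℂ} (h : φ (lam i p) = φ (lam j q)) :
    ∃ t : ℂ, p = t • α i j P ∧ q = -(t • α j i P) := by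
  obtain ⟨t, ht⟩ := hφ.eq_smul h
  refine ⟨t, ?_⟩
  have h1 := hα i j hij P
  have h2 : lam i p + lam j (-q) = lam i (t • α i j P) + lam j (t • α j i P) := by
    rw [map_neg, map_smul, map_smul, ht]
    conv_lhs => rw [h1]
    simp only [smul_add]
    abel
  obtain ⟨h3, h4⟩ := (hs i j hij).uniq h2
  exact ⟨h3, by rw [← h4, neg_neg]⟩

theorem gen_ne {P : Fin 4 → ℂ} (hg : Gen α z P) {i j : ι} (hij : i ≠ j) (s : Fin a) :
    om (z i s) (α i j P) ≠ 0 := by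
  have := hg.1 i j hij
  rw [eval_fp, Finset.prod_ne_zero_iff] at this
  exact this s (Finset.mem_univ s)

theorem gen_ne' (ha : 0 < a) {P : Fin 4 → ℂ} (hg : Gen α z P) {i j : ι} (hij : i ≠ j) :
    α i j P ≠ 0 := by
  intro h
  apply gen_ne hg hij ⟨0, ha⟩
  rw [h, map_zero]

theorem psi_inj [Nontrivial ι] (ha : 0 < a) (hs : ∀ i j, i ≠ j → Skew (lam i) (lam j))
    (hα : ∀ i j, i ≠ j → ∀ P, P = lam i (α i j P) + lam j (α j i P)) {P : Fin 4 → ℂ}
    {φ : (Fin 4 → ℂ) →ₗ[ℂ] (Fin 3 → ℂ)} (hφ : IsProj P φ) (hg : Gen α z P) (i : ι) :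
    Function.Injective (φ ∘ₗ lam i) := by
  obtain ⟨j, hj⟩ := exists_ne i
  rw [injective_iff_map_eq_zero]
  intro p hp
  have h : φ (lam i p) = φ (lam j 0) := by
    rw [map_zero, map_zero]; exact hp
  obtain ⟨t, h1, h2⟩ := node hs hα hφ (Ne.symm hj) h
  have h3 : t • α j i P = 0 := by
    rw [← neg_eq_zero]; exact h2.symm
  have h4 : t = 0 := by
    rcases smul_eq_zero.mp h3 with h | h
    · exact h
    · exact absurd h (gen_ne' ha hg hj)
  rw [h1, h4, zero_smul]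

theorem psi_node (hs : ∀ i j, i ≠ j → Skew (lam i) (lam j))
    (hα : ∀ i j, i ≠ j → ∀ P, P = lam i (α i j P) + lam j (α j i P)) {P : Fin 4 → ℂ}
    {φ : (Fin 4 → ℂ) →ₗ[ℂ] (Fin 3 → ℂ)} (hφ : IsProj P φ) (hg : Gen α z P) (i j k : ι)
    (hij : i ≠ j) (hik : i ≠ k) (hjk : j ≠ k) (p q r : Fin 2 → ℂ)
    (h1 : (φ ∘ₗ lam i) p = (φ ∘ₗ lam j) q) (h2 : (φ ∘ₗ lam i) p = (φ ∘ₗ lam k) r) : p = 0 := by
  obtain ⟨t, h3, _⟩ := node hs hα hφ hij h1
  obtain ⟨t', h4, _⟩ := node hs hα hφ hik h2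
  by_contra hp
  have ht : t ≠ 0 := by rintro rfl; exact hp (by rw [h3, zero_smul])
  have h5 : α i j P = t⁻¹ • p := by rw [h3, smul_smul, inv_mul_cancel₀ ht, one_smul]
  have ht' : t' ≠ 0 := by rintro rfl; exact hp (by rw [h4, zero_smul])
  have h6 : α i k P = t'⁻¹ • p := by rw [h4, smul_smul, inv_mul_cancel₀ ht', one_smul]
  apply hg.2 i j k hij hik hjk
  rw [h5, h6, om_smul_left, map_smul, om_self, smul_zero, mul_zero]

theorem exists_om_ne {u : Fin 2 → ℂ} (hu : u ≠ 0) : ∃ p, om u p ≠ 0 := by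
  by_contra h
  push Not at h
  exact om_ne_zero hu (LinearMap.ext h)

theorem psi_dist (ha : 0 < a) (hs : ∀ i j, i ≠ j → Skew (lam i) (lam j))
    (hα : ∀ i j, i ≠ j → ∀ P, P = lam i (α i j P) + lam j (α j i P)) {P : Fin 4 → ℂ}
    {φ : (Fin 4 → ℂ) →ₗ[ℂ] (Fin 3 → ℂ)} (hφ : IsProj P φ) (hg : Gen α z P) (i j : ι)
    (hij : i ≠ j) : LinearMap.range (φ ∘ₗ lam i) ≠ LinearMap.range (φ ∘ₗ lam j) := by
  intro h
  obtain ⟨p, hp⟩ := exists_om_ne (gen_ne' ha hg hij)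
  have h1 : (φ ∘ₗ lam i) p ∈ LinearMap.range (φ ∘ₗ lam j) := by
    rw [← h]; exact ⟨p, rfl⟩
  obtain ⟨q, hq⟩ := h1
  obtain ⟨t, h3, _⟩ := node hs hα hφ hij (p := p) (q := q) hq.symm
  apply hp
  rw [h3, map_smul, om_self, smul_zero]

theorem psi_zn (hz : ∀ i, Dist (z i)) (hs : ∀ i j, i ≠ j → Skew (lam i) (lam j))
    (hα : ∀ i j, i ≠ j → ∀ P, P = lam i (α i j P) + lam j (α j i P)) {P : Fin 4 → ℂ}
    {φ : (Fin 4 → ℂ) →ₗ[ℂ] (Fin 3 → ℂ)} (hφ : IsProj P φ) (hg : Gen α z P) (i j : ι)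
    (hij : i ≠ j) (s : Fin a) (q : Fin 2 → ℂ) : (φ ∘ₗ lam i) (z i s) ≠ (φ ∘ₗ lam j) q := by
  intro h
  obtain ⟨t, h3, _⟩ := node hs hα hφ hij (p := z i s) (q := q) h
  have ht : t ≠ 0 := by rintro rfl; exact (hz i).1 s (by rw [h3, zero_smul])
  apply gen_ne hg hij s
  have h5 : α i j P = t⁻¹ • z i s := by
    rw [h3, smul_smul, inv_mul_cancel₀ ht, one_smul]
  rw [h5, map_smul, om_self, smul_zero]

/-- the scalars -/
theorem exists_scalars [DecidableEq ι] (htri : Tri α z) {P : Fin 4 → ℂ} (hg : Gen α z P) :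
    ∃ c : ι → ℂ, (∀ i, c i ≠ 0) ∧ ∀ i j, i ≠ j →
      c i * eval (α i j P) (fp (z i)) = (-1) ^ a * (c j * eval (α j i P) (fp (z j))) := by
  by_cases hι : Nonempty ι
  swap
  · exact ⟨fun _ => 1, fun _ => one_ne_zero, fun i => absurd ⟨i⟩ hι⟩
  obtain ⟨o⟩ := hι
  have hsq : ((-1 : ℂ) ^ a) * (-1) ^ a = 1 := by
    rw [← mul_pow]; norm_num
  refine ⟨fun i => if i = o then 1 else
    (-1) ^ a * (eval (α o i P) (fp (z o)) / eval (α i o P) (fp (z i))), ?_, ?_⟩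
  · intro i
    dsimp only
    split_ifs with h
    · exact one_ne_zero
    · exact mul_ne_zero (pow_ne_zero _ (by norm_num))
        (div_ne_zero (hg.1 o i (Ne.symm h)) (hg.1 i o h))
  · intro i j hij
    dsimp only
    by_cases hi : i = o
    · subst hi
      rw [if_pos rfl, if_neg (Ne.symm hij)]
      have := hg.1 j i (Ne.symm hij)
      field_simp
      linear_combination (-(eval (α i j P) (fp (z i)))) * hsq
    · by_cases hj : j = o
      · subst hj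
        rw [if_pos rfl, if_neg hi]
        have := hg.1 i j hij
        field_simp
      · rw [if_neg hi, if_neg hj]
        have h1 := hg.1 i o hi
        have h2 := hg.1 j o hj
        have ht := htri o i j (Ne.symm hi) (Ne.symm hj) hij P
        have e1 : eval (α i j P) (fp (z i)) * (eval (α o i P) (fp (z o)) *
            eval (α j o P) (fp (z j))) = (-1) ^ a * (eval (α o j P) (fp (z o)) *
            eval (α j i P) (fp (z j)) * eval (α i o P) (fp (z i))) := by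
          linear_combination ht
        field_simp
        linear_combination e1
end

end

end Pool.Agent.Work.MP_355410_ag
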