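import Pool.Agent.Work.MP_355410_ag.Suff

namespace Pool.Agent.Work.MP_355410_ag

open MvPolynomial Module

noncomputable section

/-- the homogeneous ideal of the points of projective space represented by the vectors in `S`:
it is generated by the forms which vanish on `S` -/
def ptIdeal {n : ℕ} (S : Set (Fin n → ℂ)) : Ideal (MvPolynomial (Fin n) ℂ) :=
  Ideal.span {H | (∃ d, H.IsHomogeneous d) ∧ ∀ w ∈ S, eval w H = 0}

section

variable {ι : Type*} {lam : ι → (Fin 2 → ℂ) →ₗ[ℂ] (Fin 4 → ℂ)}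
  {α : ι → ι → (Fin 4 → ℂ) →ₗ[ℂ] (Fin 2 → ℂ)} {a : ℕ} {z : ι → Fin a → Fin 2 → ℂ}

theorem exists_curve [Fintype ι] [DecidableEq ι] [Nontrivial ι] (ha : 0 < a)
    (hs : ∀ i j, i ≠ j → Skew (lam i) (lam j))
    (hα : ∀ i j, i ≠ j → ∀ P, P = lam i (α i j P) + lam j (α j i P)) (htri : Tri α z)
    {P : Fin 4 → ℂ} {φ : (Fin 4 → ℂ) →ₗ[ℂ] (Fin 3 → ℂ)} (hφ : IsProj P φ) (hg : Gen α z P) :
    ∃ F : MvPolynomial (Fin 3) ℂ, F.IsHomogeneous a ∧
      ∀ i, ∃ c : ℂ, c ≠ 0 ∧ pull (φ ∘ₗ lam i) F = C c * fp (z i) := by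
  obtain ⟨c, hc0, hc⟩ := exists_scalars htri hg
  obtain ⟨F, hF⟩ := extend Finset.univ (fun i => φ ∘ₗ lam i) (psi_inj ha hs hα hφ hg)
    (psi_node hs hα hφ hg) (psi_dist ha hs hα hφ hg) (fun i => C (c i) * fp (z i)) (by
      intro i j hij p q hpq
      obtain ⟨t, h1, h2⟩ := node hs hα hφ hij (p := p) (q := q) hpq
      rw [map_mul, map_mul, eval_C, eval_C, h1, h2, ← neg_smul, eval_hom (fp_hom _),
        eval_hom (fp_hom _)]
      have := hc i j hij
      rw [neg_pow t a]
      linear_combination (t ^ a) * this)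
  refine ⟨homogeneousComponent a F, homogeneousComponent_isHomogeneous a F, ?_⟩
  intro i
  refine ⟨c i, hc0 i, ?_⟩
  rw [pull_component, hF i (Finset.mem_univ i)]
  have := (fp_hom (z i)).C_mul (c i)
  rw [homogeneousComponent_of_mem this, if_pos rfl]

theorem ideal_eq [Fintype ι] [DecidableEq ι] [Nontrivial ι] (ha : 0 < a)
    (hz : ∀ i, Dist (z i)) (hs : ∀ i j, i ≠ j → Skew (lam i) (lam j))
    (hα : ∀ i j, i ≠ j → ∀ P, P = lam i (α i j P) + lam j (α j i P)) (htri : Tri α z)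
    {P : Fin 4 → ℂ} {φ : (Fin 4 → ℂ) →ₗ[ℂ] (Fin 3 → ℂ)} (hφ : IsProj P φ) (hg : Gen α z P) :
    ∃ F : MvPolynomial (Fin 3) ℂ, F.IsHomogeneous a ∧
      ∃ ℓ : ι → (Fin 3 → ℂ) →ₗ[ℂ] ℂ,
      ptIdeal {w | ∃ i s, w = φ (lam i (z i s))} = Ideal.span {F, ∏ i, lin (ℓ i)} := by
  obtain ⟨F, hFa, hF⟩ := exists_curve ha hs hα htri hφ hg
  choose ℓ hℓ0 hℓ using fun i => exists_form (psi_inj ha hs hα hφ hg i)
  refine ⟨F, hFa, ℓ, ?_⟩
  apply le_antisymm
  · unfold ptIdeal
    rw [Ideal.span_le]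
    rintro H ⟨⟨d, hd⟩, hH⟩
    obtain ⟨A, B, hAB⟩ := ci_mem (fun i => φ ∘ₗ lam i) (psi_inj ha hs hα hφ hg)
      (psi_node hs hα hφ hg) (psi_dist ha hs hα hφ hg) z hz (psi_zn hz hs hα hφ hg) ℓ hℓ0 hℓ F hF
      H (by
        intro i s t
        rw [eval_hom hd, LinearMap.comp_apply, hH _ ⟨i, s, rfl⟩, mul_zero])
    rw [hAB]
    exact Ideal.add_mem _ (Ideal.mul_mem_left _ _ (Ideal.subset_span (by simp)))
      (Ideal.mul_mem_left _ _ (Ideal.subset_span (by simp)))
  · rw [Ideal.span_le]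
    intro H hH
    apply Ideal.subset_span
    rcases hH with rfl | hH
    · refine ⟨⟨a, hFa⟩, ?_⟩
      rintro w ⟨i, s, rfl⟩
      obtain ⟨c, _, hc⟩ := hF i
      have : eval (z i s) (pull (φ ∘ₗ lam i) H) = 0 := by
        rw [hc, map_mul, eval_fp, Finset.prod_eq_zero (Finset.mem_univ s) (om_self _), mul_zero]
      rw [eval_pull] at this
      exact this
    · rw [Set.mem_singleton_iff] at hH
      subst hH
      refine ⟨⟨∑ i : ι, 1, IsHomogeneous.prod _ _ _ (fun i _ => lin_hom _)⟩, ?_⟩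
      rintro w ⟨i, s, rfl⟩
      rw [map_prod]
      apply Finset.prod_eq_zero (Finset.mem_univ i)
      rw [eval_lin, hℓ]
      exact ⟨z i s, rfl⟩

/-- the polynomial whose non-vanishing makes `P` general -/
def genPoly [Fintype ι] [DecidableEq ι] (α : ι → ι → (Fin 4 → ℂ) →ₗ[ℂ] (Fin 2 → ℂ))
    (z : ι → Fin a → Fin 2 → ℂ) : MvPolynomial (Fin 4) ℂ :=
  (∏ i, ∏ j, if i = j then 1 else pull (α i j) (fp (z i))) *
  ∏ i, ∏ j, ∏ k, if i = j ∨ i = k ∨ j = k then 1 else
    (lin (LinearMap.proj 0 ∘ₗ α i j) * lin (LinearMap.proj 1 ∘ₗ α i k) -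
      lin (LinearMap.proj 1 ∘ₗ α i j) * lin (LinearMap.proj 0 ∘ₗ α i k))

theorem gen_of_genPoly [Fintype ι] [DecidableEq ι] {P : Fin 4 → ℂ}
    (h : eval P (genPoly α z) ≠ 0) : Gen α z P := by
  unfold genPoly at h
  rw [map_mul, mul_ne_zero_iff, map_prod, map_prod, Finset.prod_ne_zero_iff,
    Finset.prod_ne_zero_iff] at h
  constructor
  · intro i j hij
    have h1 := h.1 i (Finset.mem_univ i)
    rw [map_prod, Finset.prod_ne_zero_iff] at h1
    have h2 := h1 j (Finset.mem_univ j)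
    rwa [if_neg hij, eval_pull] at h2
  · intro i j k hij hik hjk
    have h1 := h.2 i (Finset.mem_univ i)
    rw [map_prod, Finset.prod_ne_zero_iff] at h1
    have h2 := h1 j (Finset.mem_univ j)
    rw [map_prod, Finset.prod_ne_zero_iff] at h2
    have h3 := h2 k (Finset.mem_univ k)
    rw [if_neg (by tauto)] at h3
    simpa [om_apply] using h3

theorem genPoly_ne_zero [Fintype ι] [DecidableEq ι] (hz : ∀ i, Dist (z i))
    (hs : ∀ i j, i ≠ j → Skew (lam i) (lam j))
    (hα : ∀ i j, i ≠ j → ∀ P, P = lam i (α i j P) + lam j (α j i P)) :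
    genPoly α z ≠ 0 := by
  unfold genPoly
  apply mul_ne_zero
  · rw [Finset.prod_ne_zero_iff]
    intro i _
    rw [Finset.prod_ne_zero_iff]
    intro j _
    split_ifs with h
    · exact one_ne_zero
    · obtain ⟨p, hp⟩ := exists_not_zero (fp_ne_zero (hz i))
      intro h0
      apply hp
      have := congrArg (eval (lam i p)) h0
      rwa [eval_pull, alpha_self hs hα h, map_zero] at this
  · rw [Finset.prod_ne_zero_iff]
    intro i _
    rw [Finset.prod_ne_zero_iff]
    intro j _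
    rw [Finset.prod_ne_zero_iff]
    intro k _
    split_ifs with h
    · exact one_ne_zero
    · push Not at h
      obtain ⟨hij, hik, hjk⟩ := h
      -- choose `P = lam j q + lam k r`
      intro h0
      have hval : ∀ P, om (α i j P) (α i k P) = 0 := by
        intro P
        have := congrArg (eval P) h0
        simpa [om_apply] using this
      have hsurj1 : ∀ u, ∃ r, α i j (lam k r) = u := by
        intro u
        refine ⟨α k j (lam i u), ?_⟩
        have h1 := hα k j (Ne.symm hjk) (lam i u)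
        have h2 : lam k (α k j (lam i u)) = lam i u + lam j (-(α j k (lam i u))) := by
          rw [map_neg]; linear_combination -h1
        exact alpha_eq hs hα hij h2
      have hsurj2 : ∀ v, ∃ q, α i k (lam j q) = v := by
        intro u
        refine ⟨α j k (lam i u), ?_⟩
        have h1 := hα j k hjk (lam i u)
        have h2 : lam j (α j k (lam i u)) = lam i u + lam k (-(α k j (lam i u))) := by
          rw [map_neg]; linear_combination -h1
        exact alpha_eq hs hα hik h2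
      obtain ⟨r, hr⟩ := hsurj1 (Pi.single 0 1)
      obtain ⟨q, hq⟩ := hsurj2 (Pi.single 1 1)
      have := hval (lam j q + lam k r)
      rw [map_add, map_add, alpha_other hs hα hij, alpha_other hs hα hik, hr, hq] at this
      simp [om_apply] at this

theorem genPoly_hom [Fintype ι] [DecidableEq ι] :
    ∃ d, (genPoly α z).IsHomogeneous d := by
  unfold genPoly
  have h1 : ∀ i j, (if i = j then (1 : MvPolynomial (Fin 4) ℂ) else
      pull (α i j) (fp (z i))).IsHomogeneous (if i = j then 0 else a) := by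
    intro i j
    split_ifs with h
    · exact isHomogeneous_one _ _
    · exact pull_hom _ (fp_hom _)
  have h2 : ∀ i j k, (if i = j ∨ i = k ∨ j = k then (1 : MvPolynomial (Fin 4) ℂ) else
    (lin (LinearMap.proj 0 ∘ₗ α i j) * lin (LinearMap.proj 1 ∘ₗ α i k) -
      lin (LinearMap.proj 1 ∘ₗ α i j) * lin (LinearMap.proj 0 ∘ₗ α i k))).IsHomogeneous
        (if i = j ∨ i = k ∨ j = k then 0 else 2) := by
    intro i j k
    split_ifs with h
    · exact isHomogeneous_one _ _
    · exact ((lin_hom _).mul (lin_hom _)).sub ((lin_hom _).mul (lin_hom _))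
  exact ⟨_, (IsHomogeneous.prod _ _ _ (fun i _ => IsHomogeneous.prod _ _ _ (fun j _ => h1 i j))).mul
    (IsHomogeneous.prod _ _ _ (fun i _ => IsHomogeneous.prod _ _ _ (fun j _ =>
      IsHomogeneous.prod _ _ _ (fun k _ => h2 i j k))))⟩

end

end

end Pool.Agent.Work.MP_355410_ag
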