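import Pool.Agent.Work.MP_355410_ag.Data

namespace Pool.Agent.Work.MP_355410_ag

open MvPolynomial Module LinearAlgebra.Projectivization

noncomputable section

theorem le_lspan {n : ℕ} {S : Set (PS n)} {x : PS n} (hx : x ∈ S) : x.submodule ≤ lspan S :=
  le_iSup₂_of_le x hx le_rfl

theorem lspan_le {n : ℕ} {S : Set (PS n)} {L : Submodule ℂ (Fin (n + 1) → ℂ)}
    (h : ∀ x ∈ S, x.submodule ≤ L) : lspan S ≤ L := iSup₂_le h

theorem lspan_union {n : ℕ} (S T : Set (PS n)) : lspan (S ∪ T) = lspan S ⊔ lspan T := by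
  unfold lspan
  rw [iSup_union]

theorem lspan_singleton {n : ℕ} (x : PS n) : lspan {x} = x.submodule := by
  unfold lspan
  simp

theorem lspan_mono {n : ℕ} {S T : Set (PS n)} (h : S ⊆ T) : lspan S ≤ lspan T :=
  lspan_le fun _ hx => le_lspan (h hx)

theorem inf_points {n : ℕ} {x y : PS n} (h : x ≠ y) : x.submodule ⊓ y.submodule = ⊥ := by
  rw [eq_bot_iff]
  rintro v ⟨hx, hy⟩
  rw [SetLike.mem_coe, submodule_eq, Submodule.mem_span_singleton] at hx hy
  obtain ⟨s, hs⟩ := hx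
  obtain ⟨t, ht⟩ := hy
  rw [Submodule.mem_bot]
  by_contra hv
  have ht0 : t ≠ 0 := by rintro rfl; exact hv (by rw [← ht, zero_smul])
  apply h
  symm
  apply eq_of_rep (c := t⁻¹ * s)
  rw [mul_smul, hs, ← ht, smul_smul, inv_mul_cancel₀ ht0, one_smul]

theorem finrank_two_points {n : ℕ} {x y : PS n} (h : x ≠ y) :
    finrank ℂ ↥(x.submodule ⊔ y.submodule) = 2 := by
  have h1 := Submodule.finrank_sup_add_finrank_inf_eq x.submodule y.submodule
  rw [inf_points h, finrank_bot, x.finrank_submodule, y.finrank_submodule] at h1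
  omega

section

variable {a b : ℕ} {L : Fin b → Submodule ℂ (Fin 4 → ℂ)} {Z Z' : Set (PS 3)}

theorem lspan_line (ha : 2 ≤ a) (h : OnSkewLines a b L Z) (i : Fin b) :
    lspan {x ∈ Z | x.submodule ≤ L i} = L i := by
  have h1 : 1 < {x ∈ Z | x.submodule ≤ L i}.ncard := by rw [h.2.2.2 i]; omega
  obtain ⟨x, y, hx, hy, hxy⟩ := (Set.one_lt_ncard_iff
    (Set.finite_of_ncard_ne_zero (by omega))).mp h1
  have hle : lspan {x ∈ Z | x.submodule ≤ L i} ≤ L i := lspan_le fun x hx => hx.2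
  apply Submodule.eq_of_le_of_finrank_le hle
  rw [h.1 i, ← finrank_two_points hxy]
  exact Submodule.finrank_mono (sup_le (le_lspan hx) (le_lspan hy))

/-- the lines of the second set -/
def newLine (f : PS 3 → PS 3) (L : Fin b → Submodule ℂ (Fin 4 → ℂ)) (Z : Set (PS 3))
    (i : Fin b) : Submodule ℂ (Fin 4 → ℂ) :=
  lspan (f '' {x ∈ Z | x.submodule ≤ L i})

theorem mem_newLine (ha : 2 ≤ a) (h : OnSkewLines a b L Z) {f : PS 3 → PS 3}
    (hr : ∀ S ⊆ Z, finrank ℂ (lspan (f '' S)) = finrank ℂ (lspan S)) {x : PS 3} (hx : x ∈ Z)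
    (i : Fin b) : (f x).submodule ≤ newLine f L Z i ↔ x.submodule ≤ L i := by
  constructor
  · intro h1
    have hsub : {x} ∪ {x ∈ Z | x.submodule ≤ L i} ⊆ Z := by
      rintro y (rfl | hy)
      · exact hx
      · exact hy.1
    have h2 := hr _ hsub
    rw [Set.image_union, Set.image_singleton, lspan_union, lspan_union, lspan_singleton,
      lspan_singleton] at h2
    change finrank ℂ ↥((f x).submodule ⊔ newLine f L Z i) = _ at h2
    rw [sup_eq_right.mpr h1] at h2
    have h3 : finrank ℂ (newLine f L Z i) = 2 := by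
      unfold newLine
      rw [hr _ (fun y hy => hy.1), lspan_line ha h, h.1 i]
    rw [h3, lspan_line ha h] at h2
    have h4 : L i = x.submodule ⊔ L i :=
      Submodule.eq_of_le_of_finrank_eq le_sup_right (by rw [h.1 i, ← h2])
    rw [h4]
    exact le_sup_left
  · intro h1
    exact le_lspan ⟨x, ⟨hx, h1⟩, rfl⟩

theorem transfer (ha : 2 ≤ a) (h : OnSkewLines a b L Z) {f : PS 3 → PS 3}
    (hf : Set.BijOn f Z Z')
    (hr : ∀ S ⊆ Z, finrank ℂ (lspan (f '' S)) = finrank ℂ (lspan S)) :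
    OnSkewLines a b (newLine f L Z) Z' := by
  refine ⟨?_, ?_, ?_, ?_⟩
  · intro i
    unfold newLine
    rw [hr _ (fun y hy => hy.1), lspan_line ha h, h.1 i]
  · intro i j hij
    have h1 : finrank ℂ ↥(newLine f L Z i ⊔ newLine f L Z j) = 4 := by
      unfold newLine
      rw [← lspan_union, ← Set.image_union, hr _ (fun y hy => hy.elim (fun h => h.1) (fun h => h.1)),
        lspan_union, lspan_line ha h, lspan_line ha h]
      have h2 := Submodule.finrank_sup_add_finrank_inf_eq (L i) (L j)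
      rw [(h.2.1 i j hij).eq_bot, finrank_bot, h.1 i, h.1 j] at h2
      omega
    have h2 := Submodule.finrank_sup_add_finrank_inf_eq (newLine f L Z i) (newLine f L Z j)
    have h3 : ∀ i, finrank ℂ (newLine f L Z i) = 2 := by
      intro i
      unfold newLine
      rw [hr _ (fun y hy => hy.1), lspan_line ha h, h.1 i]
    rw [h1, h3, h3] at h2
    rw [disjoint_iff]
    apply Submodule.finrank_eq_zero.mp
    omega
  · intro y hy
    obtain ⟨x, hx, rfl⟩ := hf.surjOn hy
    obtain ⟨i, hi⟩ := h.2.2.1 x hx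
    exact ⟨i, (mem_newLine ha h hr hx i).mpr hi⟩
  · intro i
    have h1 : {y ∈ Z' | y.submodule ≤ newLine f L Z i} = f '' {x ∈ Z | x.submodule ≤ L i} := by
      ext y
      constructor
      · rintro ⟨hy, hyL⟩
        obtain ⟨x, hx, rfl⟩ := hf.surjOn hy
        exact ⟨x, ⟨hx, (mem_newLine ha h hr hx i).mp hyL⟩, rfl⟩
      · rintro ⟨x, ⟨hx, hxL⟩, rfl⟩
        exact ⟨hf.mapsTo hx, (mem_newLine ha h hr hx i).mpr hxL⟩
    rw [h1, (hf.injOn.mono (fun y hy => hy.1)).ncard_image, h.2.2.2 i]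

theorem transfer_coplanarity (ha : 2 ≤ a) (h : OnSkewLines a b L Z) {f : PS 3 → PS 3}
    (hf : Set.BijOn f Z Z')
    (hr : ∀ S ⊆ Z, finrank ℂ (lspan (f '' S)) = finrank ℂ (lspan S)) (hc : Coplanarity L Z) :
    Coplanarity (newLine f L Z) Z' := by
  intro i j k hij hik hjk y hy hyL
  obtain ⟨x, hx, rfl⟩ := hf.surjOn hy
  rw [mem_newLine ha h hr hx] at hyL
  obtain ⟨x', hx', hxL', h1⟩ := hc i j k hij hik hjk x hx hyL
  refine ⟨f x', hf.mapsTo hx', (mem_newLine ha h hr hx' k).mpr hxL', ?_⟩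
  have hsub : {x} ∪ {x'} ∪ {x ∈ Z | x.submodule ≤ L j} ⊆ Z := by
    rintro y ((rfl | rfl) | hy)
    · exact hx
    · exact hx'
    · exact hy.1
  have h2 := hr _ hsub
  rw [Set.image_union, Set.image_union, Set.image_singleton, Set.image_singleton, lspan_union,
    lspan_union, lspan_union, lspan_union, lspan_singleton, lspan_singleton, lspan_singleton,
    lspan_singleton, lspan_line ha h, h1] at h2
  exact h2

theorem nondegenerate_of_lines (hb : 2 ≤ b) (ha : 2 ≤ a) (h : OnSkewLines a b L Z) :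
    Nondegenerate Z := by
  unfold Nondegenerate
  have hij : (⟨0, by omega⟩ : Fin b) ≠ ⟨1, by omega⟩ := by simp
  have h2 := Submodule.finrank_sup_add_finrank_inf_eq (L ⟨0, by omega⟩) (L ⟨1, by omega⟩)
  rw [(h.2.1 _ _ hij).eq_bot, finrank_bot, h.1, h.1] at h2
  have h3 : finrank ℂ (Fin 4 → ℂ) = 4 := by simp
  have h4 : ∀ i, L i ≤ lspan Z := by
    intro i
    rw [← lspan_line ha h i]
    exact lspan_mono fun y hy => hy.1
  have h5 : L ⟨0, by omega⟩ ⊔ L ⟨1, by omega⟩ = ⊤ := by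
    apply Submodule.eq_top_of_finrank_eq
    rw [h3]
    omega
  rw [eq_top_iff, ← h5]
  exact sup_le (h4 _) (h4 _)

theorem geproci_of_type (h : IsGeprociType a b Z) : IsGeproci Z := by
  obtain ⟨hfin, G, hG0, hGd, hG⟩ := h
  refine ⟨hfin, G, hG0, hGd, ?_⟩
  intro P hP φ hφ
  obtain ⟨F₁, F₂, h1, h2, hI⟩ := hG P hP φ hφ
  refine ⟨![F₁, F₂], ?_, ?_⟩
  · intro i
    fin_cases i
    · exact ⟨a, h1⟩
    · exact ⟨b, h2⟩
  · rw [hI]
    congr 1
    change {F₁, F₂} = Set.range ![F₁, F₂]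
    rw [Matrix.range_cons, Matrix.range_cons, Matrix.range_empty]
    simp [Set.pair_comm]

end

end

end Pool.Agent.Work.MP_355410_ag
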